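import Mathlib

set_option autoImplicit false

open Set Manifold Bundle
open scoped Manifold ContDiff Topology

noncomputable section

namespace Pool.Agent.N774.Stolz

/-! ### Manifolds with boundary -/

/-- Euclidean space `ℝⁿ`. -/
def E (n : ℕ) : Type := EuclideanSpace ℝ (Fin n)

instance instNACG (n : ℕ) : NormedAddCommGroup (E n) :=
  PiLp.normedAddCommGroup 2 (fun _ : Fin n => ℝ)

instance instNS (n : ℕ) : NormedSpace ℝ (E n) :=
  PiLp.normedSpace 2 ℝ (fun _ : Fin n => ℝ)

/-- The coordinates of a vector. -/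
def E.co {n : ℕ} (y : E n) : Fin n → ℝ := WithLp.ofLp (p := 2) y

/-- The vector with given coordinates. -/
def vec {n : ℕ} (a : Fin n → ℝ) : E n := WithLp.toLp 2 a

/-- The model space of `n`-manifolds with boundary: a point for `n = 0` and the half space
`{y | 0 ≤ y 0}` of `ℝⁿ` for `n ≥ 1`. -/
def HS : ℕ → Type
  | 0 => E 0
  | (n + 1) => EuclideanHalfSpace (n + 1)

instance instTopHS : (n : ℕ) → TopologicalSpace (HS n)
  | 0 => (inferInstance : TopologicalSpace (E 0))
  | (n + 1) => (inferInstance : TopologicalSpace (EuclideanHalfSpace (n + 1)))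

/-- The model with corners of `n`-manifolds with boundary. -/
def Im : (n : ℕ) → ModelWithCorners ℝ (E n) (HS n)
  | 0 => modelWithCornersSelf ℝ (E 0)
  | (n + 1) => modelWithCornersEuclideanHalfSpace (n + 1)

/-- A smooth manifold of dimension `n` with (possibly empty) boundary, Hausdorff and second
countable. -/
structure Mfd (n : ℕ) where
  carrier : Type
  [top : TopologicalSpace carrier]
  [t2 : T2Space carrier]
  [sc : SecondCountableTopology carrier]
  [charted : ChartedSpace (HS n) carrier]
  [mfd : IsManifold (Im n) ∞ carrier]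

instance {n : ℕ} : CoeSort (Mfd n) Type := ⟨Mfd.carrier⟩
attribute [instance] Mfd.top Mfd.t2 Mfd.sc Mfd.charted Mfd.mfd

/-- The boundary of a manifold. -/
def Mfd.bd {n : ℕ} (M : Mfd n) : Set M := (Im n).boundary M.carrier

/-- The tangent space `T_x M`. -/
def T {n : ℕ} (M : Mfd n) (x : M) : Type := TangentSpace (Im n) x

instance instACGT {n : ℕ} (M : Mfd n) (x : M) : AddCommGroup (T M x) :=
  (inferInstance : AddCommGroup (TangentSpace (Im n) x))

instance instModT {n : ℕ} (M : Mfd n) (x : M) : Module ℝ (T M x) :=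
  (inferInstance : Module ℝ (TangentSpace (Im n) x))

/-- The tangent bundle. -/
def TB {n : ℕ} (M : Mfd n) : Type := TangentBundle (Im n) M

instance instTopTB {n : ℕ} (M : Mfd n) : TopologicalSpace (TB M) :=
  (inferInstance : TopologicalSpace (TangentBundle (Im n) M))

/-- A tangent vector at `x`, as an element of the tangent bundle. -/
def tv {n : ℕ} {M : Mfd n} (x : M) (v : T M x) : TB M := (⟨x, v⟩ : TangentBundle (Im n) M)

/-- Smooth maps. -/
def Smooth {m n : ℕ} {M : Mfd m} {N : Mfd n} (f : M → N) : Prop := ContMDiff (Im m) (Im n) ∞ f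

/-- The derivative of a map at a point. -/
def D {m n : ℕ} {M : Mfd m} {N : Mfd n} (f : M → N) (x : M) (v : T M x) : T N (f x) :=
  mfderiv (Im m) (Im n) f x v

/-- The derivative of a map, as a map of the tangent bundles. -/
def DB {m n : ℕ} {M : Mfd m} {N : Mfd n} (f : M → N) : TB M → TB N := tangentMap (Im m) (Im n) f

/-! ### Frames and spin structures -/

/-- A frame of `T_x M ⊕ ℂ`, a linear isomorphism from `ℝⁿ ⊕ ℂ`. -/
structure Frame {n : ℕ} (M : Mfd n) where
  pt : M
  lin : (E n × ℂ) ≃ₗ[ℝ] (T M pt × ℂ)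

/-- The value of a frame on a vector `(a, z)` of `ℝⁿ ⊕ ℂ`. -/
def Frame.app {n : ℕ} {M : Mfd n} (F : Frame M) (a : E n) (z : ℂ) : T M F.pt × ℂ := F.lin (a, z)

/-- The values of a frame, as elements of `TM × ℂ`. -/
def Frame.val {n : ℕ} {M : Mfd n} (F : Frame M) (a : E n × ℂ) : TB M × ℂ :=
  (tv F.pt (F.app a.1 a.2).1, (F.app a.1 a.2).2)

/-- The composition of a frame with a linear automorphism of `ℝⁿ ⊕ ℂ`. -/
def Frame.comp {n : ℕ} {M : Mfd n} (F : Frame M) (u : (E n × ℂ) ≃ₗ[ℝ] (E n × ℂ)) : Frame M :=
  ⟨F.pt, u.trans F.lin⟩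

/-- The determinant of a linear automorphism of `ℝⁿ ⊕ ℂ`. -/
def det {n : ℕ} (u : (E n × ℂ) ≃ₗ[ℝ] (E n × ℂ)) : ℝ := LinearMap.det u.toLinearMap

/-- The sum of the derivative of a map and of the identity of `ℂ`. -/
def DC {m n : ℕ} {M : Mfd m} {N : Mfd n} (f : M → N) (p : TB M × ℂ) : TB N × ℂ := (DB f p.1, p.2)

/-- The topology of the frame bundle of `TM ⊕ ℂ`: a frame depends continuously on a parameter when
its values on all vectors do. -/
instance instTopFrame {n : ℕ} (M : Mfd n) : TopologicalSpace (Frame M) :=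
  TopologicalSpace.induced Frame.val Pi.topologicalSpace

/-- A spin `n`-manifold (with boundary) with a proper, cocompact, smooth action of the discrete group
`Γ` which preserves the spin structure.

A spin structure is an orientation together with a two-fold covering `fr : P → Fr` of the bundle of
the oriented frames of `TM ⊕ ℂ` which is non-trivial over the frames at each point of `M` (Milnor's
definition, applied to `TM ⊕ ℂ`, so that it makes sense for `n = 0, 1` too). Here `neg` is the
exchange of the two sheets. The action of `Γ` on the frames by the derivatives lifts to an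
action on `P`, which is part of the data. -/
structure SpinMfd (Γ : Type) [Group Γ] (n : ℕ) extends Mfd n where
  [act : MulAction Γ carrier]
  smooth_smul : ∀ g : Γ, Smooth (M := toMfd) (N := toMfd) (fun x => g • x)
  proper : ∀ K : Set carrier, IsCompact K → {g : Γ | ((fun x => g • x) '' K ∩ K).Nonempty}.Finite
  cocompact : ∃ K : Set carrier, IsCompact K ∧ ∀ x, ∃ g : Γ, g • x ∈ K
  P : Type
  [topP : TopologicalSpace P]
  [t2P : T2Space P]
  fr : P → Frame toMfd
  neg : P → P
  continuous_fr : Continuous fr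
  isOpenMap_fr : IsOpenMap fr
  continuous_neg : Continuous neg
  neg_ne : ∀ e, neg e ≠ e
  fr_eq_iff : ∀ e e', fr e = fr e' ↔ e = e' ∨ e = neg e'
  orientation : ∀ (e : P) (u : (E n × ℂ) ≃ₗ[ℝ] (E n × ℂ)), (fr e).comp u ∈ range fr ↔ 0 < det u
  nontrivial_fibre : ∀ x : carrier, IsConnected {e | (fr e).pt = x}
  [actP : MulAction Γ P]
  continuous_smulP : ∀ g : Γ, Continuous (fun e : P => g • e)
  fr_smul : ∀ (g : Γ) (e : P) (a : E n × ℂ),
    (fr (g • e)).val a = DC (fun x => g • x) ((fr e).val a)

attribute [instance] SpinMfd.act SpinMfd.topP SpinMfd.t2P SpinMfd.actP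

variable {Γ : Type} [Group Γ] {n : ℕ}

/-! ### Riemannian metrics and scalar curvature -/

/-- Smooth Riemannian metrics (Mathlib's definition). -/
def Metric (M : Mfd n) : Type :=
  ContMDiffRiemannianMetric (Im n) ∞ (E n) (fun x : M => TangentSpace (Im n) x)

/-- The inner product of two tangent vectors. -/
def Metric.ip {M : Mfd n} (g : Metric M) (x : M) (v w : T M x) : ℝ :=
  ContMDiffRiemannianMetric.inner g x v w

/-- The vectors of the standard basis of `ℝⁿ`. -/
def bv (i : Fin n) : E n := vec (Pi.single i 1)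

/-- A chart of a manifold, not necessarily compatible with the smooth structure. -/
abbrev Chart (M : Mfd n) : Type := OpenPartialHomeomorph M (HS n)

/-- A chart which belongs to the smooth structure. -/
def Chart.IsSmooth {M : Mfd n} (φ : Chart M) : Prop := φ ∈ IsManifold.maximalAtlas (Im n) ∞ M

/-- The coordinates of a point. -/
def Chart.coord {M : Mfd n} (φ : Chart M) (x : M) : E n := φ.extend (Im n) x

/-- The point with given coordinates. -/
def Chart.inv {M : Mfd n} (φ : Chart M) (y : E n) : M := (φ.extend (Im n)).symm y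

/-- The set of the possible coordinates. -/
def Chart.target {M : Mfd n} (φ : Chart M) : Set (E n) := (φ.extend (Im n)).target

/-- The coordinate vector field `∂_i`, at the point with coordinates `y`. -/
def Chart.dvec {M : Mfd n} (φ : Chart M) (y : E n) (i : Fin n) : T M (φ.inv y) :=
  mfderivWithin (modelWithCornersSelf ℝ (E n)) (Im n) φ.inv (range (Im n)) y (bv i)

/-- The coefficients `g_{ij}` of a Riemannian metric in the coordinates given by a chart `φ`, at the
point with coordinates `y`. -/
def coef {M : Mfd n} (g : Metric M) (φ : Chart M) (y : E n) (i j : Fin n) : ℝ :=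
  g.ip (φ.inv y) (φ.dvec y i) (φ.dvec y j)

/-- Partial derivatives of functions of the coordinates. -/
def pd (k : Fin n) (f : E n → ℝ) (y : E n) : ℝ := fderivWithin ℝ f (range (Im n)) y (bv k)

/-- The coefficients `g^{ij}` of the inverse matrix. -/
def icoef {M : Mfd n} (g : Metric M) (φ : Chart M) (y : E n) (i j : Fin n) :
    ℝ := (Matrix.of (coef g φ y))⁻¹ i j

/-- The Christoffel symbols `Γ^k_{ij} = ½ g^{kl} (∂_i g_{jl} + ∂_j g_{il} - ∂_l g_{ij})`. -/
def christoffel {M : Mfd n} (g : Metric M) (φ : Chart M) (k i j : Fin n)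
    (y : E n) : ℝ :=
  (1 / 2) * ∑ l, icoef g φ y k l * (pd i (fun z => coef g φ z j l) y +
    pd j (fun z => coef g φ z i l) y - pd l (fun z => coef g φ z i j) y)

/-- The Ricci curvature
`R_{jk} = ∂_i Γ^i_{jk} - ∂_j Γ^i_{ik} + Γ^i_{ip} Γ^p_{jk} - Γ^i_{jp} Γ^p_{ik}`. -/
def ricci {M : Mfd n} (g : Metric M) (φ : Chart M) (j k : Fin n) (y : E n) :
    ℝ :=
  ∑ i, (pd i (christoffel g φ i j k) y - pd j (christoffel g φ i i k) y) +
    ∑ i, ∑ p, (christoffel g φ i i p y * christoffel g φ p j k y -
      christoffel g φ i j p y * christoffel g φ p i k y)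

/-- The scalar curvature `g^{jk} R_{jk}` at the point `x`, computed in the preferred chart. -/
def scal {M : Mfd n} (g : Metric M) (x : M) : ℝ :=
  let φ : Chart M := chartAt (HS n) x
  ∑ j, ∑ k, icoef g φ (φ.coord x) j k * ricci g φ j k (φ.coord x)

/-- In the coordinates `φ` the metric is a product of the first coordinate axis and of a metric in the
other coordinates: `g = dy_0² + ∑_{i,j ≥ 1} h_{ij}(y_1, …, y_{n-1}) dy_i dy_j`. -/
def IsProductIn {M : Mfd n} (g : Metric M) (φ : Chart M) : Prop :=
  (∀ y ∈ φ.target, ∀ i j : Fin n, i.val = 0 → coef g φ y i j = if j = i then 1 else 0) ∧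
  ∀ y ∈ φ.target, ∀ y' ∈ φ.target, (∀ i : Fin n, i.val ≠ 0 → y.co i = y'.co i) →
    ∀ i j : Fin n, i.val ≠ 0 → j.val ≠ 0 → coef g φ y i j = coef g φ y' i j

/-- A triple `(L, f, h)` as in the definition of `R_n^spin(X)^Γ`: a Riemannian spin `n`-manifold `L`
with boundary, with a proper, cocompact and isometric action of `Γ` preserving the spin structure, a
`Γ`-equivariant map `f : L → X` and a `Γ`-invariant metric `h` of positive scalar curvature on the
boundary. The metric of `L` is taken to be the product metric `dt² + h` near the boundary; then the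
scalar curvature of `h` at a boundary point is that of `dt² + h`. (The metric of `L` is
complete, as it is invariant under a cocompact group.) -/
structure Triple (Γ : Type) [Group Γ] (X : Type) [TopologicalSpace X] [MulAction Γ X] (n : ℕ)
    extends SpinMfd Γ n where
  f : carrier → X
  continuous_f : Continuous f
  f_smul : ∀ (g : Γ) (x : carrier), f (g • x) = g • f x
  metric : Metric toMfd
  isometry : ∀ (g : Γ) (x : carrier) (v w : T toMfd x),
    metric.ip (g • x) (D (M := toMfd) (N := toMfd) (fun x => g • x) x v)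
      (D (M := toMfd) (N := toMfd) (fun x => g • x) x w) = metric.ip x v w
  product : ∀ x ∈ toMfd.bd, ∃ φ : Chart toMfd, φ.IsSmooth ∧ x ∈ φ.source ∧ IsProductIn metric φ
  psc_boundary : ∀ x ∈ toMfd.bd, 0 < scal metric x

/-! ### The equivalence relation -/

variable {X : Type} [TopologicalSpace X] [MulAction Γ X]

/-- `L` is a piece of the closed manifold `M`: `i : L → M` is a `Γ`-equivariant isometric embedding of
codimension `0`, compatible with the maps to `X`, near the image of the boundary of `L` the metric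
of `M` is the product `dt² + h` with `L` on the side `t ≥ 0`, and the spin structures correspond
under `κ` (for `r = id`), or the spin structure of `L` is the opposite one of that of `M` (for `r` the
complex conjugation, the opposite spin structure being given by composing the frames with a
reflection). -/
structure IsPiece (L M : Triple Γ X n) (i : L.carrier → M.carrier) (κ : L.P → M.P) (r : ℂ → ℂ) :
    Prop where
  smooth : Smooth (M := L.toMfd) (N := M.toMfd) i
  isEmbedding : Topology.IsEmbedding i
  bijective : ∀ x, Function.Bijective (D (M := L.toMfd) (N := M.toMfd) i x)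
  smul : ∀ (g : Γ) (x : L.carrier), i (g • x) = g • i x
  map : ∀ x, M.f (i x) = L.f x
  isometric : ∀ (x : L.carrier) (v w : T L.toMfd x),
    M.metric.ip (i x) (D (M := L.toMfd) (N := M.toMfd) i x v)
      (D (M := L.toMfd) (N := M.toMfd) i x w) = L.metric.ip x v w
  collar : ∀ x ∈ L.toMfd.bd, ∃ φ : Chart M.toMfd, φ.IsSmooth ∧
    i x ∈ φ.source ∧ IsProductIn M.metric φ ∧ ∀ y ∈ φ.source, ∀ j : Fin n, j.val = 0 →
      (y ∈ range i ↔ (φ.coord (i x)).co j ≤ (φ.coord y).co j)
  continuous_spin : Continuous κ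
  neg_spin : ∀ e, κ (L.neg e) = M.neg (κ e)
  smul_spin : ∀ (g : Γ) (e : L.P), κ (g • e) = g • κ e
  fr_spin : ∀ (e : L.P) (a : E n) (z : ℂ), (M.fr (κ e)).val (a, z) = DC i ((L.fr e).val (a, r z))

/-- The vector `(t, a)` of `ℝ^(n+1)`. -/
def cons (t : ℝ) (a : E n) : E (n + 1) := vec (Fin.cons t a.co)

/-- The value on `(t, a, z)` of the frame `(ν, F)` of `TW ⊕ ℂ`, where `F` is a frame of `TM ⊕ ℂ`, `b` is an
embedding of `M` into `W` and `ν` a normal vector. -/
def Frame.normal {M : Mfd n} {W : Mfd (n + 1)} (F : Frame M) (b : M → W) (ν : ∀ x : M, T W (b x))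
    (t : ℝ) (a : E n) (z : ℂ) : TB W × ℂ :=
  (tv (b F.pt) (t • ν F.pt + D b F.pt (F.app a z).1), (F.app a z).2)

/-- `M` is the boundary of `W`: `b : M → W` is a `Γ`-equivariant embedding onto the boundary, `ν` is
a `Γ`-equivariant continuous field of outward pointing vectors (in the preferred chart at
`b x` its first coordinate is negative), and the map `κ` identifies the
spin structure of `M` with the restriction of that of `W`: a frame `F` of `TM ⊕ ℂ` corresponds
to the frame `(ν, F)` of `TW ⊕ ℂ`. -/
structure IsBoundary (M : SpinMfd Γ n) (W : SpinMfd Γ (n + 1)) (b : M.carrier → W.carrier)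
    (ν : ∀ x : M.carrier, T W.toMfd (b x)) (κ : M.P → W.P) : Prop where
  smooth : Smooth (M := M.toMfd) (N := W.toMfd) b
  isEmbedding : Topology.IsEmbedding b
  injective : ∀ x, Function.Injective (D (M := M.toMfd) (N := W.toMfd) b x)
  range_eq : range b = W.toMfd.bd
  smul : ∀ (g : Γ) (x : M.carrier), b (g • x) = g • b x
  continuous_normal : Continuous (fun x => tv (b x) (ν x))
  smul_normal : ∀ (g : Γ) (x : M.carrier), tv (b (g • x)) (ν (g • x)) =
    DB (M := W.toMfd) (fun y => g • y) (tv (b x) (ν x))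
  outward : ∀ x, E.co (show E (n + 1) from ν x) 0 < 0
  continuous_spin : Continuous κ
  neg_spin : ∀ e, κ (M.neg e) = W.neg (κ e)
  smul_spin : ∀ (g : Γ) (e : M.P), κ (g • e) = g • κ e
  fr_spin : ∀ (e : M.P) (t : ℝ) (a : E n) (z : ℂ),
    (W.fr (κ e)).val (cons t a, z) = (M.fr e).normal b ν t a z

/-- The two conditions (a) and (b): there are a closed manifold `M = L₁ ∪ V ∪ (-L₂)` with a metric
extending those of `L₁` and `L₂` which has positive scalar curvature on `V`, the closure of
the complement of `L₁` and `L₂`, and a manifold `W` with `∂ W = M`, all spin with actions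
of `Γ` and maps to `X`. -/
def Bordant (L₁ L₂ : Triple Γ X n) : Prop :=
  ∃ (M : Triple Γ X n) (i₁ : L₁.carrier → M.carrier) (κ₁ : L₁.P → M.P) (i₂ : L₂.carrier → M.carrier)
    (κ₂ : L₂.P → M.P) (W : SpinMfd Γ (n + 1)) (b : M.carrier → W.carrier)
    (ν : ∀ x : M.carrier, T W.toMfd (b x)) (κ : M.P → W.P) (F : W.carrier → X),
    M.toMfd.bd = ∅ ∧ IsPiece L₁ M i₁ κ₁ id ∧ IsPiece L₂ M i₂ κ₂ (starRingEnd ℂ) ∧
    Disjoint (range i₁) (range i₂) ∧
    (∀ x, x ∉ i₁ '' (L₁.toMfd.bd)ᶜ → x ∉ i₂ '' (L₂.toMfd.bd)ᶜ → 0 < scal M.metric x) ∧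
    IsBoundary M.toSpinMfd W b ν κ ∧ Continuous F ∧ (∀ (g : Γ) x, F (g • x) = g • F x) ∧
    ∀ x, F (b x) = M.f x

/-! ### The product with `𝔅` and the direct limit -/

/-- A closed, simply connected, scalar flat spin manifold of dimension `8`. (A Bott manifold is one
with `Â(𝔅) = 1`.) -/
structure Factor extends SpinMfd Unit 8 where
  met : Metric toMfd
  closed : toMfd.bd = ∅
  simplyConnected : SimplyConnectedSpace carrier
  scalarFlat : ∀ x, scal met x = 0

/-- The vector `(a, c)` of `ℝ^(n+8) = ℝ^n × ℝ^8`. -/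
def append {n' : ℕ} (h : n' = n + 8) (a : E n) (c : E 8) : E n' :=
  vec (fun i => Fin.append a.co c.co (Fin.cast h i))

/-- The frame is the sum of a frame of `T_x M` and of the identity of `ℂ`. -/
def Frame.Split {M : Mfd n} (G : Frame M) : Prop :=
  (∀ c, (G.app c 0).2 = 0) ∧ ∀ z, G.app 0 z = (0, z)

/-- `L'` is the product `L × 𝔅`, with the projections `p` and `q`: this is the product as
Riemannian manifolds with an action of `Γ` (on the first factor) and a map to `X`, and `μ` is the
product of spin structures: for a frame `F` of `TL ⊕ ℂ` and a frame `G` of `T𝔅 ⊕ ℂ` which is the sum of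
a frame of `T𝔅` and of the identity of `ℂ`, the frame of `TL' ⊕ ℂ` below `μ` is the sum of `F` and
this frame of `T𝔅`. -/
structure IsProduct {n' : ℕ} (h : n' = n + 8) (L : Triple Γ X n) (B : Factor) (L' : Triple Γ X n')
    (p : L'.carrier → L.carrier) (q : L'.carrier → B.carrier) (μ : L.P → B.P → L'.P) : Prop where
  smooth_p : Smooth (M := L'.toMfd) (N := L.toMfd) p
  smooth_q : Smooth (M := L'.toMfd) (N := B.toMfd) q
  isHomeomorph : IsHomeomorph (fun x => (p x, q x))
  bijective : ∀ x, Function.Bijective (fun v : T L'.toMfd x =>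
    (D (M := L'.toMfd) (N := L.toMfd) p x v, D (M := L'.toMfd) (N := B.toMfd) q x v))
  smul_p : ∀ (g : Γ) (x : L'.carrier), p (g • x) = g • p x
  smul_q : ∀ (g : Γ) (x : L'.carrier), q (g • x) = q x
  map : ∀ x, L'.f x = L.f (p x)
  isometric : ∀ (x : L'.carrier) (v w : T L'.toMfd x), L'.metric.ip x v w =
    L.metric.ip (p x) (D (M := L'.toMfd) (N := L.toMfd) p x v)
      (D (M := L'.toMfd) (N := L.toMfd) p x w) +
    B.met.ip (q x) (D (M := L'.toMfd) (N := B.toMfd) q x v)
      (D (M := L'.toMfd) (N := B.toMfd) q x w)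
  continuous_spin : ContinuousOn (fun ee : L.P × B.P => μ ee.1 ee.2) {ee | (B.fr ee.2).Split}
  spin : ∀ (e : L.P) (e' : B.P), (B.fr e').Split →
    μ (L.neg e) e' = L'.neg (μ e e') ∧ μ e (B.neg e') = L'.neg (μ e e') ∧
    (∀ g : Γ, μ (g • e) e' = g • μ e e') ∧
    ∀ (a : E n) (c : E 8) (z : ℂ),
      DB (M := L'.toMfd) (N := L.toMfd) p ((L'.fr (μ e e')).val (append h a c, z)).1 =
        ((L.fr e).val (a, z)).1 ∧
      DB (M := L'.toMfd) (N := B.toMfd) q ((L'.fr (μ e e')).val (append h a c, z)).1 =
        ((B.fr e').val (c, 0)).1 ∧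
      ((L'.fr (μ e e')).val (append h a c, z)).2 = ((L.fr e).val (a, z)).2

/-- The identifications which define the direct limit of the sets `R_{n+8k}^spin(X)^Γ`, `k ≥ 0`,
under the product with `𝔅`: equivalent triples of the same dimension are identified, and each triple
is identified with its product with `𝔅`. -/
inductive Rel (Γ : Type) [Group Γ] (X : Type) [TopologicalSpace X] [MulAction Γ X] (B : Factor)
    (n : ℕ) : (Σ k : ℕ, Triple Γ X (n + 8 * k)) → (Σ k : ℕ, Triple Γ X (n + 8 * k)) → Prop
  | bordant (k : ℕ) (L₁ L₂ : Triple Γ X (n + 8 * k)) (h : Bordant L₁ L₂) : Rel Γ X B n ⟨k, L₁⟩ ⟨k, L₂⟩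
  | product (k : ℕ) (L : Triple Γ X (n + 8 * k)) (L' : Triple Γ X (n + 8 * (k + 1)))
      (p : L'.carrier → L.carrier) (q : L'.carrier → B.carrier) (μ : L.P → B.P → L'.P)
      (h : IsProduct (by ring) L B L' p q μ) : Rel Γ X B n ⟨k, L⟩ ⟨k + 1, L'⟩

/-- The direct limit `R_n^spin(X)^Γ[𝔅⁻¹]`. -/
def RLim (Γ : Type) [Group Γ] (X : Type) [TopologicalSpace X] [MulAction Γ X] (B : Factor) (n : ℕ) :
    Type 1 := Quot (Rel Γ X B n)

/-- The class of a triple of dimension `n` in the direct limit. -/
def Triple.cls (L : Triple Γ X n) (B : Factor) : RLim Γ X B n := Quot.mk _ ⟨0, L⟩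

/-! ### The index of a closed manifold of dimension `0` -/

/-- Finitely generated projective modules over the ring `A`. -/
structure FGP (A : Type) [Ring A] where
  mdl : Type
  [grp : AddCommGroup mdl]
  [mod : Module A mdl]
  [fin : Module.Finite A mdl]
  [proj : Module.Projective A mdl]

attribute [instance] FGP.grp FGP.mod FGP.fin FGP.proj

/-- The relations `[R] = [P] + [Q]` for `R ≅ P ⊕ Q`. -/
def K0rel (A : Type) [Ring A] : Set (FreeAbelianGroup (FGP A)) :=
  {x | ∃ P Q R : FGP A, Nonempty (R.mdl ≃ₗ[A] P.mdl × Q.mdl) ∧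
    x = FreeAbelianGroup.of R - (FreeAbelianGroup.of P + FreeAbelianGroup.of Q)}

/-- The Grothendieck group `K₀(A)` of the finitely generated projective `A`-modules. -/
abbrev K0 (A : Type) [Ring A] : Type 1 :=
  FreeAbelianGroup (FGP A) ⧸ AddSubgroup.closure (K0rel A)

/-- The class of a module in `K₀(A)`. -/
def K0.mk {A : Type} [Ring A] (P : FGP A) : K0 A :=
  QuotientAddGroup.mk (FreeAbelianGroup.of P)

/-- The `ℝ[Γ]`-module `V` is, by means of the map `j`, the module of the (real) spinors of the closed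
spin manifold `L` of dimension `0`, over the positively oriented points (for `r = id`) or over the
negatively oriented points (for `r` the complex conjugation): a spinor is a function `φ` on the part
of `P` which lies over the standard frames, with `φ (neg e) = -φ e`, and `Γ` acts on
spinors by `(g φ)(e) = φ(g⁻¹ e)`. -/
structure IsSpinors (L : SpinMfd Γ 0) (r : ℂ → ℂ) (V : FGP (MonoidAlgebra ℝ Γ))
    (j : V.mdl → L.P → ℝ) : Prop where
  injective : Function.Injective j
  add : ∀ v w e, j (v + w) e = j v e + j w e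
  smul : ∀ (c : ℝ) (g : Γ) v e, j (MonoidAlgebra.single g c • v) e = c * j v (g⁻¹ • e)
  range : ∀ φ : L.P → ℝ, φ ∈ range j ↔
    ∀ e, φ (L.neg e) = -φ e ∧ (φ e ≠ 0 → ∀ z, ((L.fr e).app 0 z).2 = r z)

end Pool.Agent.N774.Stolz
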