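import Mathlib

/-!
A map of finite order of a manifold (with corners) which fixes a point and all tangent vectors at this
point is the identity near this point.
-/

set_option autoImplicit false

open Set Manifold Bundle Filter
open scoped Manifold ContDiff Topology

namespace Pool.Agent.N774.Stolz

variable {F : Type*} [NormedAddCommGroup F] [NormedSpace ℝ F]

/-- local form, in coordinates -/
theorem local_id {s : Set F} (hs : Convex ℝ s) (hu : UniqueDiffOn ℝ s) {x : F} (hx : x ∈ s)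
    {T : F → F} (hT : ContDiffWithinAt ℝ 1 T s x)
    (hd : fderivWithin ℝ T s x = ContinuousLinearMap.id ℝ F) {m : ℕ} (hm : 0 < m) :
    ∃ δ > 0, ∀ y : ℕ → F, (∀ i ≤ m, y i ∈ s ∩ Metric.ball x δ) → (∀ i < m, y (i + 1) = T (y i)) →
      y m = y 0 → y 1 = y 0 := by
  obtain ⟨u, uo, xu, hcd⟩ := hT.contDiffOn' (m := 1) le_rfl (by simp)
  rw [insert_eq_of_mem hx] at hcd
  have hus : UniqueDiffOn ℝ (s ∩ u) := hu.inter uo
  have hcont := (hcd.continuousOn_fderivWithin hus le_rfl) x ⟨hx, xu⟩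
  have hdx : fderivWithin ℝ T (s ∩ u) x = ContinuousLinearMap.id ℝ F := by
    rw [fderivWithin_inter (uo.mem_nhds xu), hd]
  obtain ⟨ε, hε, hε2⟩ : ∃ ε : ℝ, 0 < ε ∧ (1 + ε) ^ m < 2 := by
    have hm' : (0 : ℝ) < m := by exact_mod_cast hm
    refine ⟨1 / (2 * m), by positivity, ?_⟩
    have h1 : (1 + 1 / (2 * (m : ℝ))) ^ m ≤ Real.exp (1 / (2 * m)) ^ m := by
      refine pow_le_pow_left₀ (by positivity) ?_ m
      have := Real.add_one_le_exp (1 / (2 * (m : ℝ)))
      linarith
    rw [← Real.exp_nat_mul] at h1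
    have h2 : (m : ℝ) * (1 / (2 * m)) = 1 / 2 := by field_simp
    rw [h2] at h1
    have h3 : Real.exp (1 / 2) < 2 := by
      have h4 := Real.exp_one_lt_d9
      have h5 : Real.exp (1 / 2) ^ 2 = Real.exp 1 := by
        rw [← Real.exp_nat_mul]; norm_num
      have h6 := Real.exp_pos (1 / 2)
      nlinarith
    linarith
  have h1 : ∀ᶠ y in 𝓝[s ∩ u] x, ‖fderivWithin ℝ T (s ∩ u) y - ContinuousLinearMap.id ℝ F‖ ≤ ε := by
    have h2 := (hcont.sub (continuousWithinAt_const (b := ContinuousLinearMap.id ℝ F))).norm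
    have h3 : ∀ᶠ y in 𝓝[s ∩ u] x,
        ‖fderivWithin ℝ T (s ∩ u) y - ContinuousLinearMap.id ℝ F‖ < ε := by
      apply h2.eventually_lt_const
      simp only [Pi.sub_apply]
      rw [hdx]
      simpa using hε
    exact h3.mono fun y hy => hy.le
  rw [eventually_nhdsWithin_iff, Metric.eventually_nhds_iff_ball] at h1
  obtain ⟨δ₁, hδ₁, h1⟩ := h1
  obtain ⟨δ₂, hδ₂, h2⟩ := Metric.isOpen_iff.mp uo x xu
  refine ⟨min δ₁ δ₂, lt_min hδ₁ hδ₂, ?_⟩
  set C := s ∩ Metric.ball x (min δ₁ δ₂) with hC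
  have hCsub : C ⊆ s ∩ u := fun y hy => ⟨hy.1, h2 (Metric.ball_subset_ball (min_le_right _ _) hy.2)⟩
  have hCconv : Convex ℝ C := hs.inter (convex_ball _ _)
  intro y hy hTy hper
  have hstep : ∀ a ∈ C, ∀ b ∈ C, ‖T b - T a - (b - a)‖ ≤ ε * ‖b - a‖ := by
    intro a ha b hb
    have h3 := hCconv.norm_image_sub_le_of_norm_hasFDerivWithin_le' (f := T)
      (f' := fun y => fderivWithin ℝ T (s ∩ u) y) (φ := ContinuousLinearMap.id ℝ F) (C := ε)
      (fun z hz => ((hcd.differentiableOn (by simp)) z (hCsub hz)).hasFDerivWithinAt.mono hCsub)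
      (fun z hz => h1 z (Metric.ball_subset_ball (min_le_left _ _) hz.2) (hCsub hz)) ha hb
    simpa using h3
  -- differences
  have hd1 : ∀ i, i + 1 < m → ‖(y (i + 2) - y (i + 1)) - (y (i + 1) - y i)‖ ≤
      ε * ‖y (i + 1) - y i‖ := by
    intro i hi
    have h3 := hstep (y i) (hy i (by omega)) (y (i + 1)) (hy (i + 1) (by omega))
    rw [← hTy i (by omega), ← hTy (i + 1) (by omega)] at h3
    exact h3
  set D := ‖y 1 - y 0‖ with hD
  have hD0 : 0 ≤ D := norm_nonneg _
  have hind : ∀ i, i < m → ‖y (i + 1) - y i‖ ≤ (1 + ε) ^ i * D ∧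
      ‖(y (i + 1) - y i) - (y 1 - y 0)‖ ≤ ((1 + ε) ^ i - 1) * D := by
    intro i
    induction i with
    | zero => intro _; simp [hD]
    | succ i ih =>
      intro hi
      obtain ⟨ih1, ih2⟩ := ih (by omega)
      have h3 := hd1 i hi
      have h4 : ε * ‖y (i + 1) - y i‖ ≤ ε * ((1 + ε) ^ i * D) :=
        mul_le_mul_of_nonneg_left ih1 hε.le
      constructor
      · have h5 : ‖y (i + 2) - y (i + 1)‖ ≤ ‖(y (i + 2) - y (i + 1)) - (y (i + 1) - y i)‖ +
            ‖y (i + 1) - y i‖ := by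
          have := norm_add_le ((y (i + 2) - y (i + 1)) - (y (i + 1) - y i)) (y (i + 1) - y i)
          simpa using this
        show ‖y (i + 2) - y (i + 1)‖ ≤ _
        rw [pow_succ]
        nlinarith
      · have h5 : ‖(y (i + 2) - y (i + 1)) - (y 1 - y 0)‖ ≤
            ‖(y (i + 2) - y (i + 1)) - (y (i + 1) - y i)‖ +
            ‖(y (i + 1) - y i) - (y 1 - y 0)‖ := by
          have := norm_add_le ((y (i + 2) - y (i + 1)) - (y (i + 1) - y i))
            ((y (i + 1) - y i) - (y 1 - y 0))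
          simpa using this
        show ‖(y (i + 2) - y (i + 1)) - (y 1 - y 0)‖ ≤ _
        rw [pow_succ]
        nlinarith
  have hsum : ∑ i ∈ Finset.range m, (y (i + 1) - y i) = 0 := by
    rw [Finset.sum_range_sub, hper, sub_self]
  have hsum2 : (m : ℝ) • (y 1 - y 0) =
      -∑ i ∈ Finset.range m, ((y (i + 1) - y i) - (y 1 - y 0)) := by
    rw [Finset.sum_sub_distrib, hsum]
    simp [Nat.cast_smul_eq_nsmul, smul_sub]
  have hn : (m : ℝ) * D ≤ m * (((1 + ε) ^ m - 1) * D) := by
    have h5 : ‖(m : ℝ) • (y 1 - y 0)‖ = m * D := by rw [norm_smul]; simp [hD]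
    rw [← h5, hsum2, norm_neg]
    refine (norm_sum_le _ _).trans ?_
    have h6 : ∀ i ∈ Finset.range m, ‖(y (i + 1) - y i) - (y 1 - y 0)‖ ≤ ((1 + ε) ^ m - 1) * D := by
      intro i hi
      rw [Finset.mem_range] at hi
      refine ((hind i hi).2).trans (mul_le_mul_of_nonneg_right ?_ hD0)
      have := pow_le_pow_right₀ (show (1 : ℝ) ≤ 1 + ε by linarith) hi.le
      linarith
    refine (Finset.sum_le_sum h6).trans ?_
    simp
  have hm' : (0 : ℝ) < m := by exact_mod_cast hm
  have h7 : D ≤ ((1 + ε) ^ m - 1) * D := le_of_mul_le_mul_left hn hm'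
  have h8 : D = 0 := by
    by_contra hne
    have hpos : 0 < D := lt_of_le_of_ne hD0 (Ne.symm hne)
    nlinarith
  exact sub_eq_zero.mp (norm_eq_zero.mp h8)

variable {H : Type*} [TopologicalSpace H] (I : ModelWithCorners ℝ F H) {M : Type*}
  [TopologicalSpace M] [ChartedSpace H M]

theorem eventually_id {σ : M → M} (hσ : ContMDiff I I ∞ σ) {m : ℕ} (hm : 0 < m)
    (hper : ∀ x, σ^[m] x = x) {x : M}
    (hx : ∀ v : TangentSpace I x, tangentMap I I σ ⟨x, v⟩ = ⟨x, v⟩) : ∀ᶠ y in 𝓝 x, σ y = y := by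
  have hσx : σ x = x := congrArg TotalSpace.proj (hx 0)
  -- the map in coordinates
  have h1 := ((contMDiffAt_iff (I := I) (I' := I)).mp (hσ x)).2
  rw [hσx] at h1
  set T := extChartAt I x ∘ σ ∘ (extChartAt I x).symm with hTdef
  have hmem : extChartAt I x x ∈ range I := mem_range_self _
  have hd : fderivWithin ℝ T (range I) (extChartAt I x x) = ContinuousLinearMap.id ℝ F := by
    have h2 : mfderiv I I σ x = fderivWithin ℝ (writtenInExtChartAt I I x σ) (range I)
        (extChartAt I x x) := ((hσ x).mdifferentiableAt (by simp)).mfderiv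
    have h3 : writtenInExtChartAt I I x σ = T := by
      rw [writtenInExtChartAt, hσx]
    rw [h3] at h2
    ext1 v
    have h4 := hx v
    have h5 : HEq (mfderiv I I σ x v) v := by
      have := Bundle.TotalSpace.mk.inj h4
      exact this.2
    rw [← h2]
    exact eq_of_heq h5
  obtain ⟨δ, hδ, hloc⟩ := local_id (I.convex_range) I.uniqueDiffOn hmem (h1.of_le (by simp)) hd hm
  have e0 : ∀ᶠ y in 𝓝 x, y ∈ (extChartAt I x).source ∧
      extChartAt I x y ∈ Metric.ball (extChartAt I x x) δ :=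
    Filter.Eventually.and (extChartAt_source_mem_nhds (I := I) x)
      ((continuousAt_extChartAt x).eventually (Metric.ball_mem_nhds _ hδ))
  have e1 : ∀ᶠ y in 𝓝 x, ∀ i ∈ Finset.range (m + 1), σ^[i] y ∈ (extChartAt I x).source ∧
      extChartAt I x (σ^[i] y) ∈ Metric.ball (extChartAt I x x) δ := by
    rw [Filter.eventually_all_finset]
    intro i _
    have h3 : Tendsto (σ^[i]) (𝓝 x) (𝓝 x) := by
      have := (hσ.continuous.iterate i).tendsto x
      rwa [Function.iterate_fixed hσx] at this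
    exact h3.eventually e0
  filter_upwards [e1] with y hy
  have hr : ∀ z, extChartAt I x z ∈ range I := fun z => mem_range_self _
  have h5 := hloc (fun i => extChartAt I x (σ^[i] y))
    (fun i hi => ⟨hr _, (hy i (Finset.mem_range.mpr (by omega))).2⟩)
    (fun i hi => by
      simp only [hTdef, Function.comp_apply, Function.iterate_succ_apply']
      rw [(extChartAt I x).left_inv (hy i (Finset.mem_range.mpr (by omega))).1])
    (by simp only [hper, Function.iterate_zero, id_eq])
  simp only [Function.iterate_one, Function.iterate_zero, id_eq] at h5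
  have h6 := (hy 1 (Finset.mem_range.mpr (by omega))).1
  have h7 := (hy 0 (Finset.mem_range.mpr (by omega))).1
  exact (extChartAt I x).injOn h6 h7 h5

theorem isOpen_fixed {σ : M → M} (hσ : ContMDiff I I ∞ σ) {m : ℕ} (hm : 0 < m)
    (hper : ∀ x, σ^[m] x = x) :
    IsOpen {x : M | ∀ v : TangentSpace I x, tangentMap I I σ ⟨x, v⟩ = ⟨x, v⟩} := by
  rw [isOpen_iff_mem_nhds]
  intro x hx
  have h := eventually_id I hσ hm hper hx
  filter_upwards [h.eventually_nhds] with y hy
  intro v
  have h1 : σ =ᶠ[𝓝 y] id := hy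
  have h2 := h1.mfderiv_eq (I := I) (I' := I)
  have h3 : σ y = y := hy.self_of_nhds
  have h4 : tangentMap I I σ ⟨y, v⟩ = tangentMap I I id ⟨y, v⟩ := by
    simp only [tangentMap]
    rw [h2]
    apply Bundle.TotalSpace.ext
    · exact h3
    · exact HEq.rfl
  rw [h4, tangentMap_id]
  rfl

end Pool.Agent.N774.Stolz
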