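import Mathlib
import Pool.Agent.N774.Stolz.Defs
import Pool.Agent.N774.Stolz.Local

/-!
The operation which replaces the action of `Γ` on the spin structure by the trivial one over the
part of the manifold on which `Γ` acts trivially.
-/

set_option autoImplicit false

open Set Manifold Bundle
open scoped Manifold ContDiff Topology

noncomputable section

namespace Pool.Agent.N774.Stolz

variable {Γ : Type} [Group Γ] {n : ℕ}

/-! ### tangent maps -/

/-- the base point -/
def TB.pt {n : ℕ} {M : Mfd n} (p : TB M) : M := Bundle.TotalSpace.proj (show TangentBundle (Im n) M from p)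

theorem tv_inj {M : Mfd n} {x y : M} {v : T M x} {w : T M y} (h : tv x v = tv y w) :
    x = y ∧ HEq v w := by
  have h' := Bundle.TotalSpace.mk.inj h
  exact h'

theorem tv_inj' {M : Mfd n} {x : M} {v w : T M x} (h : tv x v = tv x w) : v = w :=
  eq_of_heq (tv_inj h).2

theorem tm_iff {M : Mfd n} {φ : M → M} {x : M} {v : T M x} :
    DB φ (tv x v) = tv x v ↔ φ x = x ∧ (show E n from D φ x v) = (show E n from v) := by
  constructor
  · intro h
    have h' := Bundle.TotalSpace.mk.inj h
    exact ⟨h'.1, eq_of_heq h'.2⟩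
  · rintro ⟨h1, h2⟩
    apply Bundle.TotalSpace.ext
    · exact h1
    · exact heq_of_eq h2

theorem tm_inj {m : ℕ} {M : Mfd m} {N : Mfd n} {φ : M → N} (hi : Function.Injective φ)
    (hd : ∀ x, Function.Injective (D φ x)) : Function.Injective (DB φ) := by
  rintro ⟨x, v⟩ ⟨y, w⟩ h
  have h' := Bundle.TotalSpace.mk.inj h
  have hxy : x = y := hi h'.1
  subst hxy
  have := hd x (eq_of_heq h'.2)
  exact congrArg (fun z : T M x => tv x z) this

/-! ### the set `Z` -/

/-- The points near which `Γ` acts trivially. -/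
def SpinMfd.Z (M : SpinMfd Γ n) : Set M.carrier :=
  {x | ∀ (g : Γ) (v : T M.toMfd x), DB (fun y : M.toMfd => g • y) (tv x v) = tv x v}

theorem SpinMfd.smul_of_mem (M : SpinMfd Γ n) {x : M.carrier} (hx : x ∈ M.Z) (g : Γ) : g • x = x :=
  congrArg TB.pt (hx g 0)

theorem SpinMfd.smul_mem_iff (M : SpinMfd Γ n) {x : M.carrier} (g : Γ) : g • x ∈ M.Z ↔ x ∈ M.Z := by
  constructor
  · intro h
    have h1 := M.smul_of_mem h g⁻¹
    rw [inv_smul_smul] at h1
    rwa [← h1] at h
  · intro h
    rwa [M.smul_of_mem h g]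

theorem isOpen_Z [Finite Γ] (M : SpinMfd Γ n) : IsOpen M.Z := by
  have : M.Z = ⋂ g : Γ, {x | ∀ v : TangentSpace (Im n) x,
      tangentMap (Im n) (Im n) (fun y : M.carrier => g • y) ⟨x, v⟩ = ⟨x, v⟩} := by
    ext x
    simp only [SpinMfd.Z, mem_ofPred_eq, mem_iInter]
    rfl
  rw [this]
  refine isOpen_iInter_of_finite fun g => ?_
  refine isOpen_fixed (Im n) (M.smooth_smul g) (orderOf_pos g) fun x => ?_
  rw [smul_iterate, pow_orderOf_eq_one]
  exact one_smul Γ x

/-! ### frames -/

theorem Frame.ext_val {M : Mfd n} {F G : Frame M} (h : ∀ a, F.val a = G.val a) : F = G := by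
  obtain ⟨x, u⟩ := F
  obtain ⟨y, w⟩ := G
  have hxy : x = y := congrArg (fun t : TB M × ℂ => t.1.pt) (h 0)
  subst hxy
  congr 1
  refine LinearEquiv.ext fun a => ?_
  have h1 := h a
  simp only [Frame.val, Frame.app, Prod.mk.injEq] at h1
  exact Prod.ext (tv_inj' h1.1) h1.2

theorem continuous_val (M : Mfd n) (a : E n × ℂ) : Continuous (fun F : Frame M => F.val a) := by
  have h : Continuous (Frame.val : Frame M → _) := continuous_induced_dom
  exact (continuous_apply a).comp h

theorem continuous_TBpt (M : Mfd n) : Continuous (fun p : TB M => p.pt) :=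
  FiberBundle.continuous_proj (E n) (TangentSpace (Im n) : M → Type)

theorem continuous_pt (M : Mfd n) : Continuous (fun F : Frame M => F.pt) := by
  have h1 := (continuous_val M 0).fst
  exact (continuous_TBpt M).comp h1

variable (M : SpinMfd Γ n)

theorem SpinMfd.pt_smul (g : Γ) (e : M.P) : (M.fr (g • e)).pt = g • (M.fr e).pt :=
  congrArg (fun t : TB M.toMfd × ℂ => t.1.pt) (M.fr_smul g e 0)

theorem SpinMfd.fr_smul_of_mem {e : M.P} (he : (M.fr e).pt ∈ M.Z) (g : Γ) :
    M.fr (g • e) = M.fr e := by
  apply Frame.ext_val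
  intro a
  rw [M.fr_smul]
  have h := he g ((M.fr e).lin a).1
  exact Prod.ext h rfl

theorem SpinMfd.mem_iff (e : M.P) :
    (M.fr e).pt ∈ M.Z ↔ ∀ g : Γ, g • e = e ∨ g • e = M.neg e := by
  constructor
  · intro h g
    exact (M.fr_eq_iff _ _).mp (M.fr_smul_of_mem h g)
  · intro h g v
    have h1 := (M.fr_eq_iff _ _).mpr (h g)
    obtain ⟨a, ha⟩ := (M.fr e).lin.surjective (v, 0)
    have h2 := M.fr_smul g e a
    rw [h1] at h2
    have h3 := congrArg Prod.fst h2
    simp only [Frame.val, Frame.app, DC] at h3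
    rw [ha] at h3
    exact h3.symm

theorem SpinMfd.isClopen (ho : IsOpen M.Z) : IsClopen {e : M.P | (M.fr e).pt ∈ M.Z} := by
  constructor
  · have : {e : M.P | (M.fr e).pt ∈ M.Z} =
        ⋂ g : Γ, ({e : M.P | g • e = e} ∪ {e : M.P | g • e = M.neg e}) := by
      ext e
      simp only [mem_ofPred_eq, mem_iInter, mem_union]
      exact M.mem_iff e
    rw [this]
    refine isClosed_iInter fun g => IsClosed.union ?_ ?_
    · exact isClosed_eq (M.continuous_smulP g) continuous_id
    · exact isClosed_eq (M.continuous_smulP g) M.continuous_neg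
  · exact ho.preimage ((continuous_pt M.toMfd).comp M.continuous_fr)

/-! ### The new action -/

open Classical in
/-- the new action on the spin structure -/
def SpinMfd.newSmul (g : Γ) (e : M.P) : M.P := if (M.fr e).pt ∈ M.Z then e else g • e

theorem SpinMfd.newSmul_of_mem {e : M.P} (he : (M.fr e).pt ∈ M.Z) (g : Γ) : M.newSmul g e = e :=
  if_pos he

theorem SpinMfd.newSmul_of_notMem {e : M.P} (he : (M.fr e).pt ∉ M.Z) (g : Γ) :
    M.newSmul g e = g • e := if_neg he

/-- the new action on the spin structure -/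
@[reducible] def SpinMfd.newAct : MulAction Γ M.P where
  smul := M.newSmul
  one_smul e := by
    show M.newSmul 1 e = e
    by_cases he : (M.fr e).pt ∈ M.Z
    · rw [M.newSmul_of_mem he]
    · rw [M.newSmul_of_notMem he, one_smul]
  mul_smul g h e := by
    show M.newSmul (g * h) e = M.newSmul g (M.newSmul h e)
    by_cases he : (M.fr e).pt ∈ M.Z
    · rw [M.newSmul_of_mem he, M.newSmul_of_mem he, M.newSmul_of_mem he]
    · have he' : (M.fr (h • e)).pt ∉ M.Z := by
        rw [M.pt_smul, M.smul_mem_iff]
        exact he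
      rw [M.newSmul_of_notMem he, M.newSmul_of_notMem he, M.newSmul_of_notMem he', mul_smul]

/-- the operation on spin manifolds -/
def SpinMfd.tw (ho : IsOpen M.Z) : SpinMfd Γ n where
  toMfd := M.toMfd
  act := M.act
  smooth_smul := M.smooth_smul
  proper := M.proper
  cocompact := M.cocompact
  P := M.P
  topP := M.topP
  t2P := M.t2P
  fr := M.fr
  neg := M.neg
  continuous_fr := M.continuous_fr
  isOpenMap_fr := M.isOpenMap_fr
  continuous_neg := M.continuous_neg
  neg_ne := M.neg_ne
  fr_eq_iff := M.fr_eq_iff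
  orientation := M.orientation
  nontrivial_fibre := M.nontrivial_fibre
  actP := M.newAct
  continuous_smulP g := by
    show Continuous (fun e => M.newSmul g e)
    classical
    unfold SpinMfd.newSmul
    refine Continuous.if ?_ continuous_id (M.continuous_smulP g)
    intro e he
    rw [(M.isClopen ho).frontier_eq] at he
    exact absurd he (by simp)
  fr_smul g e a := by
    show (M.fr (M.newSmul g e)).val a = _
    by_cases he : (M.fr e).pt ∈ M.Z
    · rw [M.newSmul_of_mem he]
      exact Prod.ext (he g _).symm rfl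
    · rw [M.newSmul_of_notMem he]
      exact M.fr_smul g e a

theorem tw_smulP (ho : IsOpen M.Z) (g : Γ) (e : M.P) :
    (letI := (M.tw ho).actP; (g • (show (M.tw ho).P from e) : (M.tw ho).P)) = M.newSmul g e := rfl

end Pool.Agent.N774.Stolz
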