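import Mathlib
import Pool.Agent.N774.Stolz.Zero

/-!
The signed permutation modules.
-/

set_option autoImplicit false

noncomputable section

namespace Pool.Agent.N774.Stolz

variable {Γ : Type} [Group Γ]

/-- The signed permutation representation of `Γ` on the functions on `S`: it maps the function `δ_s`
to `sgn g s • δ_{g s}`. -/
def SignedSet.rep (S : SignedSet Γ) : Representation ℝ Γ (S.S → ℝ) where
  toFun g :=
    { toFun := fun f s => ((S.sgn g (g⁻¹ • s) : ℤ) : ℝ) * f (g⁻¹ • s)
      map_add' := fun f f' => by funext s; simp only [Pi.add_apply]; ring
      map_smul' := fun c f => by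
        funext s
        simp only [Pi.smul_apply, smul_eq_mul, RingHom.id_apply]
        ring }
  map_one' := by
    ext f s
    simp [S.sgn_one]
  map_mul' g h := by
    apply LinearMap.ext
    intro f
    funext s
    simp only [LinearMap.coe_mk, AddHom.coe_mk, Module.End.mul_apply]
    rw [S.sgn_mul, mul_inv_rev, mul_smul, smul_inv_smul]
    push_cast
    ring

/-- The module over the real group ring of the finite group `Γ` given by a signed set; it is
the space of sections of the real line bundle `S × P0 ×_{±1} ℝ` of the spinors. -/
def SignedSet.module [Finite Γ] (S : SignedSet Γ) : FGP (MonoidAlgebra ℝ Γ) where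
  mdl := S.rep.asModule
  fin := Module.Finite.of_restrictScalars_finite ℝ _ _
  proj := Module.projective_of_isSemisimpleRing _ _

end Pool.Agent.N774.Stolz
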