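import Mathlib
import Pool.Agent.N774.Stolz.Tw

/-!
The operation `tw` respects the equivalence relation and the product with `𝔅`.
-/

set_option autoImplicit false

open Set Manifold Bundle
open scoped Manifold ContDiff Topology

noncomputable section

namespace Pool.Agent.N774.Stolz

variable {Γ : Type} [Group Γ] {n : ℕ} {X : Type} [TopologicalSpace X] [MulAction Γ X]

/-- the operation on triples -/
def Triple.tw (L : Triple Γ X n) (ho : IsOpen L.Z) : Triple Γ X n where
  toSpinMfd := L.toSpinMfd.tw ho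
  f := L.f
  continuous_f := L.continuous_f
  f_smul := L.f_smul
  metric := L.metric
  isometry := L.isometry
  product := L.product
  psc_boundary := L.psc_boundary

theorem DB_tv {m n : ℕ} {M : Mfd m} {N : Mfd n} (f : M → N) (x : M) (v : T M x) :
    DB f (tv x v) = tv (f x) (D f x v) := rfl

theorem DB_comp {l m n : ℕ} {K : Mfd l} {M : Mfd m} {N : Mfd n} {g : M → N} {f : K → M}
    (hg : Smooth g) (hf : Smooth f) (p : TB K) : DB (g ∘ f) p = DB g (DB f p) :=
  tangentMap_comp_at (I := Im l) (I' := Im m) (I'' := Im n) p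
    ((show ContMDiff (Im m) (Im n) ∞ g from hg).mdifferentiableAt (by simp))
    ((show ContMDiff (Im l) (Im m) ∞ f from hf).mdifferentiableAt (by simp))

theorem D_add {m n : ℕ} {M : Mfd m} {N : Mfd n} (f : M → N) (x : M) (v w : T M x) :
    D f x (v + w) = D f x v + D f x w :=
  (mfderiv (Im m) (Im n) f x).map_add _ _

theorem D_smul {m n : ℕ} {M : Mfd m} {N : Mfd n} (f : M → N) (x : M) (c : ℝ) (v : T M x) :
    D f x (c • v) = c • D f x v :=
  (mfderiv (Im m) (Im n) f x).map_smul _ _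

/-- naturality of the tangent maps -/
theorem tm_comm {m n : ℕ} {M : SpinMfd Γ m} {N : SpinMfd Γ n} {φ : M.toMfd → N.toMfd}
    (hφ : Smooth φ) (hs : ∀ (g : Γ) x, φ (g • x) = g • φ x) (g : Γ)
    (p : TB M.toMfd) :
    DB (fun y : N.toMfd => g • y) (DB φ p) = DB φ (DB (fun y : M.toMfd => g • y) p) := by
  rw [← DB_comp (N.smooth_smul g) hφ, ← DB_comp hφ (M.smooth_smul g)]
  have : (fun y : N.toMfd => g • y) ∘ φ = φ ∘ (fun y : M.toMfd => g • y) := by
    funext x
    exact (hs g x).symm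
  rw [this]

theorem mem_Z_of_inj {m n : ℕ} {M : SpinMfd Γ m} {N : SpinMfd Γ n} {φ : M.toMfd → N.toMfd}
    (hφ : Smooth φ) (hs : ∀ (g : Γ) x, φ (g • x) = g • φ x)
    (hi : Function.Injective φ) (hd : ∀ x, Function.Injective (D φ x))
    {x : M.carrier} (hx : φ x ∈ N.Z) : x ∈ M.Z := by
  intro g v
  apply tm_inj hi hd
  rw [← tm_comm hφ hs]
  exact hx g _

theorem mem_Z_of_surj {m n : ℕ} {M : SpinMfd Γ m} {N : SpinMfd Γ n} {φ : M.toMfd → N.toMfd}
    (hφ : Smooth φ) (hs : ∀ (g : Γ) x, φ (g • x) = g • φ x)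
    {x : M.carrier} (hd : Function.Surjective (D φ x))
    (hx : x ∈ M.Z) : φ x ∈ N.Z := by
  intro g w
  obtain ⟨v, hv⟩ := hd w
  have h := tm_comm hφ hs g (tv x v)
  rw [hx g v] at h
  have h2 : DB φ (tv x v) = tv (φ x) w := by
    rw [← hv]
    rfl
  rwa [h2] at h

theorem IsPiece.Z_iff {L M : Triple Γ X n} {i : L.carrier → M.carrier} {κ : L.P → M.P} {r : ℂ → ℂ}
    (h : IsPiece L M i κ r) (x : L.carrier) : i x ∈ M.Z ↔ x ∈ L.Z :=
  ⟨fun hx => mem_Z_of_inj h.smooth h.smul h.isEmbedding.injective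
    (fun x => (h.bijective x).1) hx,
    fun hx => mem_Z_of_surj h.smooth h.smul (h.bijective x).2 hx⟩

theorem newSmul_natural {m n : ℕ} {M : SpinMfd Γ m} {N : SpinMfd Γ n} {κ : M.P → N.P}
    (hZ : ∀ e, (N.fr (κ e)).pt ∈ N.Z ↔ (M.fr e).pt ∈ M.Z) (hs : ∀ (g : Γ) e, κ (g • e) = g • κ e)
    (g : Γ) (e : M.P) : κ (M.newSmul g e) = N.newSmul g (κ e) := by
  by_cases he : (M.fr e).pt ∈ M.Z
  · rw [M.newSmul_of_mem he, N.newSmul_of_mem ((hZ e).mpr he)]
  · rw [M.newSmul_of_notMem he, N.newSmul_of_notMem (fun h => he ((hZ e).mp h)), hs]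

theorem IsPiece.pt {L M : Triple Γ X n} {i : L.carrier → M.carrier} {κ : L.P → M.P} {r : ℂ → ℂ}
    (h : IsPiece L M i κ r) (e : L.P) : (M.fr (κ e)).pt = i (L.fr e).pt :=
  congrArg (fun t : TB M.toMfd × ℂ => t.1.pt) (h.fr_spin e 0 0)

theorem IsPiece.tw {L M : Triple Γ X n} {i : L.carrier → M.carrier} {κ : L.P → M.P} {r : ℂ → ℂ}
    (h : IsPiece L M i κ r) (hL : IsOpen L.Z) (hM : IsOpen M.Z) :
    IsPiece (L.tw hL) (M.tw hM) i κ r where
  smooth := h.smooth
  isEmbedding := h.isEmbedding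
  bijective := h.bijective
  smul := h.smul
  map := h.map
  isometric := h.isometric
  collar := h.collar
  continuous_spin := h.continuous_spin
  neg_spin := h.neg_spin
  smul_spin := newSmul_natural (M := L.toSpinMfd) (N := M.toSpinMfd)
    (fun e => by rw [h.pt, h.Z_iff]) h.smul_spin
  fr_spin := h.fr_spin

theorem exists_cons (c : E (n + 1)) : ∃ (t : ℝ) (a : E n), c = cons t a := by
  refine ⟨c.co 0, vec (fun i => c.co i.succ), ?_⟩
  show c = vec _
  have h : (Fin.cons (c.co 0) (fun i => c.co i.succ) : Fin (n + 1) → ℝ) = c.co := by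
    funext i
    refine Fin.cases ?_ (fun j => ?_) i
    · rfl
    · rfl
  show c = vec (Fin.cons (c.co 0) (fun i => c.co i.succ))
  rw [h]
  rfl

theorem IsBoundary.pt {M : SpinMfd Γ n} {W : SpinMfd Γ (n + 1)} {b : M.carrier → W.carrier}
    {ν : ∀ x : M.carrier, T W.toMfd (b x)} {κ : M.P → W.P}
    (h : IsBoundary M W b ν κ) (e : M.P) : (W.fr (κ e)).pt = b (M.fr e).pt :=
  congrArg (fun t : TB W.toMfd × ℂ => t.1.pt) (h.fr_spin e 0 0 0)

theorem IsBoundary.Z_iff {M : SpinMfd Γ n} {W : SpinMfd Γ (n + 1)} {b : M.carrier → W.carrier}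
    {ν : ∀ x : M.carrier, T W.toMfd (b x)} {κ : M.P → W.P}
    (h : IsBoundary M W b ν κ) (x : M.carrier) : b x ∈ W.Z ↔ x ∈ M.Z := by
  constructor
  · exact fun hx => mem_Z_of_inj h.smooth h.smul h.isEmbedding.injective h.injective hx
  · intro hx g w
    have hgx : g • x = x := M.smul_of_mem hx g
    -- the normal vector is fixed
    have h1 : DB (fun y : W.toMfd => g • y) (tv (b x) (ν x)) = tv (b x) (ν x) := by
      rw [← h.smul_normal, hgx]
    -- tangent vectors are fixed
    have h2 : ∀ v : T M.toMfd x,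
        DB (fun y : W.toMfd => g • y)
          (tv (b x) (D (M := M.toMfd) (N := W.toMfd) b x v)) =
          tv (b x) (D (M := M.toMfd) (N := W.toMfd) b x v) := by
      intro v
      have h3 := tm_comm h.smooth h.smul g (tv x v)
      rw [hx g v] at h3
      exact h3
    -- they span
    obtain ⟨e, he⟩ := (M.nontrivial_fibre x).nonempty
    have he : (M.fr e).pt = x := he
    subst he
    obtain ⟨⟨c, z⟩, hc⟩ := (W.fr (κ e)).lin.surjective
      ((show E (n + 1) from w : T W.toMfd (W.fr (κ e)).pt), (0 : ℂ))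
    obtain ⟨t, a, rfl⟩ := exists_cons c
    have h4 := h.fr_spin e t a z
    simp only [Frame.val, Frame.app, Frame.normal, hc, Prod.mk.injEq] at h4
    have h5 := tv_inj h4.1
    have h6 : w = t • ν (M.fr e).pt +
        D (M := M.toMfd) (N := W.toMfd) b (M.fr e).pt ((M.fr e).lin (a, z)).1 := eq_of_heq h5.2
    have h7 := tm_iff.mp h1
    have h8 := tm_iff.mp (h2 ((M.fr e).lin (a, z)).1)
    refine tm_iff.mpr ⟨h7.1, ?_⟩
    rw [h6]
    have h9 : D (fun y : W.toMfd => g • y) (b (M.fr e).pt)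
        (t • ν (M.fr e).pt +
          D (M := M.toMfd) (N := W.toMfd) b (M.fr e).pt ((M.fr e).lin (a, z)).1) =
        t • D (fun y : W.toMfd => g • y) (b (M.fr e).pt)
          (ν (M.fr e).pt) +
        D (fun y : W.toMfd => g • y) (b (M.fr e).pt)
          (D (M := M.toMfd) (N := W.toMfd) b (M.fr e).pt ((M.fr e).lin (a, z)).1) := by
      rw [D_add, D_smul]
    calc (show E (n + 1) from D (fun y : W.toMfd => g • y)
          (b (M.fr e).pt) (t • ν (M.fr e).pt +
          D (M := M.toMfd) (N := W.toMfd) b (M.fr e).pt ((M.fr e).lin (a, z)).1))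
        = t • (show E (n + 1) from D (fun y : W.toMfd => g • y)
            (b (M.fr e).pt) (ν (M.fr e).pt)) +
          (show E (n + 1) from D (fun y : W.toMfd => g • y)
            (b (M.fr e).pt)
            (D (M := M.toMfd) (N := W.toMfd) b (M.fr e).pt ((M.fr e).lin (a, z)).1)) := h9
      _ = t • (show E (n + 1) from ν (M.fr e).pt) + (show E (n + 1) from
            D (M := M.toMfd) (N := W.toMfd) b (M.fr e).pt ((M.fr e).lin (a, z)).1) := by
          rw [h7.2]
          exact congrArg _ h8.2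
      _ = _ := rfl

theorem IsBoundary.tw {M : SpinMfd Γ n} {W : SpinMfd Γ (n + 1)} {b : M.carrier → W.carrier}
    {ν : ∀ x : M.carrier, T W.toMfd (b x)} {κ : M.P → W.P}
    (h : IsBoundary M W b ν κ) (hM : IsOpen M.Z) (hW : IsOpen W.Z) :
    IsBoundary (M.tw hM) (W.tw hW) b ν κ where
  smooth := h.smooth
  isEmbedding := h.isEmbedding
  injective := h.injective
  range_eq := h.range_eq
  smul := h.smul
  continuous_normal := h.continuous_normal
  smul_normal := h.smul_normal
  outward := h.outward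
  continuous_spin := h.continuous_spin
  neg_spin := h.neg_spin
  smul_spin := newSmul_natural (fun e => by rw [h.pt, h.Z_iff]) h.smul_spin
  fr_spin := h.fr_spin

theorem Bordant.tw (ho : ∀ (m : ℕ) (M : SpinMfd Γ m), IsOpen M.Z) {L₁ L₂ : Triple Γ X n}
    (h : Bordant L₁ L₂) : Bordant (L₁.tw (ho n _)) (L₂.tw (ho n _)) := by
  obtain ⟨M, i₁, κ₁, i₂, κ₂, W, b, ν, κ, F, h1, h2, h3, h4, h5, h6, h7, h8, h9⟩ := h
  exact ⟨M.tw (ho n _), i₁, κ₁, i₂, κ₂, W.tw (ho _ _), b, ν, κ, F, h1, h2.tw (ho _ _) (ho _ _),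
    h3.tw (ho _ _) (ho _ _), h4, h5, h6.tw (ho _ _) (ho _ _), h7, h8, h9⟩

theorem IsProduct.Z_iff {n' : ℕ} {h : n' = n + 8} {L : Triple Γ X n} {B : Factor}
    {L' : Triple Γ X n'} {p : L'.carrier → L.carrier} {q : L'.carrier → B.carrier}
    {μ : L.P → B.P → L'.P} (H : IsProduct h L B L' p q μ) (x : L'.carrier) :
    p x ∈ L.Z ↔ x ∈ L'.Z := by
  constructor
  · intro hx g v
    have h1 := tm_comm H.smooth_p H.smul_p g (tv x v)
    have h2 : DB (fun y : L.toMfd => g • y)
        (DB (M := L'.toMfd) (N := L.toMfd) p (tv x v)) = DB (M := L'.toMfd) (N := L.toMfd) p (tv x v) :=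
      hx g _
    rw [h2] at h1
    have h3 : DB (M := L'.toMfd) (N := B.toMfd) q (DB (fun y : L'.toMfd => g • y) (tv x v)) =
        DB (M := L'.toMfd) (N := B.toMfd) q (tv x v) := by
      rw [← DB_comp H.smooth_q (L'.smooth_smul g)]
      have : q ∘ (fun y : L'.carrier => g • y) = q := by
        funext y
        exact H.smul_q g y
      exact congrArg (fun f => DB (M := L'.toMfd) (N := B.toMfd) f (tv x v)) this
    have h4 : g • x = x := by
      apply H.isHomeomorph.injective
      have e1 := congrArg TB.pt h1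
      have e2 := congrArg TB.pt h3
      exact Prod.ext e1.symm e2
    refine tm_iff.mpr ⟨h4, ?_⟩
    have e1 := tv_inj (v := _) (w := _) h1
    have e2 := tv_inj (v := _) (w := _) h3
    set w : E n' := (show E n' from D (fun y : L'.toMfd => g • y) x v) with hw
    have key : ∀ y : L'.toMfd, y = x →
        HEq (D (M := L'.toMfd) (N := L.toMfd) p x v) (D (M := L'.toMfd) (N := L.toMfd) p y
          (show T L'.toMfd y from w)) →
        HEq (D (M := L'.toMfd) (N := B.toMfd) q y (show T L'.toMfd y from w))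
          (D (M := L'.toMfd) (N := B.toMfd) q x v) → w = (show E n' from v) := by
      rintro y rfl k1 k2
      apply (H.bijective y).1
      exact Prod.ext (eq_of_heq k1).symm (eq_of_heq k2)
    exact key (g • x) h4 e1.2 e2.2
  · intro hx
    refine mem_Z_of_surj H.smooth_p H.smul_p ?_ hx
    intro w
    obtain ⟨v, hv⟩ := (H.bijective x).2 (w, 0)
    exact ⟨v, congrArg Prod.fst hv⟩

theorem IsProduct.pt {n' : ℕ} {h : n' = n + 8} {L : Triple Γ X n} {B : Factor}
    {L' : Triple Γ X n'} {p : L'.carrier → L.carrier} {q : L'.carrier → B.carrier}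
    {μ : L.P → B.P → L'.P} (H : IsProduct h L B L' p q μ) (e : L.P) (e' : B.P)
    (h1 : (B.fr e').Split) :
    p (L'.fr (μ e e')).pt = (L.fr e).pt :=
  congrArg TB.pt ((H.spin e e' h1).2.2.2 0 0 0).1

theorem IsProduct.tw {n' : ℕ} {h : n' = n + 8} {L : Triple Γ X n} {B : Factor}
    {L' : Triple Γ X n'} {p : L'.carrier → L.carrier} {q : L'.carrier → B.carrier}
    {μ : L.P → B.P → L'.P} (H : IsProduct h L B L' p q μ) (hL : IsOpen L.Z) (hL' : IsOpen L'.Z) :
    IsProduct h (L.tw hL) B (L'.tw hL') p q μ where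
  smooth_p := H.smooth_p
  smooth_q := H.smooth_q
  isHomeomorph := H.isHomeomorph
  bijective := H.bijective
  smul_p := H.smul_p
  smul_q := H.smul_q
  map := H.map
  isometric := H.isometric
  continuous_spin := H.continuous_spin
  spin e e' h1 := by
    refine ⟨(H.spin e e' h1).1, (H.spin e e' h1).2.1, ?_, (H.spin e e' h1).2.2.2⟩
    exact fun g => newSmul_natural (M := L.toSpinMfd) (N := L'.toSpinMfd) (κ := fun e => μ e e')
      (fun e => by rw [← H.Z_iff, H.pt e e' h1]) (fun g e => (H.spin e e' h1).2.2.1 g) g e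

/-- The operation on the direct limit. -/
def twLim (ho : ∀ (m : ℕ) (M : SpinMfd Γ m), IsOpen M.Z) (B : Factor) (n : ℕ) :
    RLim Γ X B n → RLim Γ X B n :=
  Quot.map (fun L => ⟨L.1, L.2.tw (ho _ _)⟩) (by
    rintro _ _ (⟨k, L₁, L₂, h⟩ | ⟨k, L, L', p, q, μ, h⟩)
    · exact Rel.bordant _ _ _ (h.tw ho)
    · exact Rel.product _ _ _ _ _ _ (h.tw (ho _ _) (ho _ _)))

end Pool.Agent.N774.Stolz
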