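import Mathlib
import Pool.Agent.N774.Stolz.RelTw
import Pool.Agent.N774.Stolz.K

/-!
The proof: `Γ = {1, -1}`, `S = Γ` and `S' =` two fixed points, with a trivial and a nontrivial sign.
-/

set_option autoImplicit false

open Set Manifold Bundle
open scoped Manifold ContDiff Topology

noncomputable section

namespace Pool.Agent.N774.Stolz

variable {Γ : Type} [Group Γ] {n : ℕ} {X : Type} [TopologicalSpace X] [MulAction Γ X]

/-! ### changing the action -/

/-- change the action on the spin structure -/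
def SpinMfd.withAct (M : SpinMfd Γ n) (a : MulAction Γ M.P)
    (h1 : ∀ g : Γ, Continuous (fun e : M.P => a.smul g e))
    (h2 : ∀ (g : Γ) (e : M.P) (v : E n × ℂ), (M.fr (a.smul g e)).val v =
      DC (fun x : M.toMfd => g • x) ((M.fr e).val v)) : SpinMfd Γ n :=
  { M with actP := a, continuous_smulP := h1, fr_smul := h2 }

/-- change the action on the spin structure -/
def Triple.withAct (L : Triple Γ X n) (a : MulAction Γ L.P)
    (h1 : ∀ g : Γ, Continuous (fun e : L.P => a.smul g e))
    (h2 : ∀ (g : Γ) (e : L.P) (v : E n × ℂ), (L.fr (a.smul g e)).val v =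
      DC (fun x : L.toMfd => g • x) ((L.fr e).val v)) : Triple Γ X n :=
  { L with toSpinMfd := L.toSpinMfd.withAct a h1 h2 }

theorem Triple.withAct_congr (L : Triple Γ X n) {a a' : MulAction Γ L.P} (h : a = a')
    (h1 : ∀ g : Γ, Continuous (fun e : L.P => a.smul g e))
    (h2 : ∀ (g : Γ) (e : L.P) (v : E n × ℂ), (L.fr (a.smul g e)).val v =
      DC (fun x : L.toMfd => g • x) ((L.fr e).val v))
    (h1' : ∀ g : Γ, Continuous (fun e : L.P => a'.smul g e))
    (h2' : ∀ (g : Γ) (e : L.P) (v : E n × ℂ), (L.fr (a'.smul g e)).val v =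
      DC (fun x : L.toMfd => g • x) ((L.fr e).val v)) : L.withAct a h1 h2 = L.withAct a' h1' h2' := by
  subst h
  rfl

open Classical in
/-- Replace the signs by `1` at the points which are fixed by `Γ`. -/
def SignedSet.fix (S : SignedSet Γ) : SignedSet Γ :=
  { S with
    sgn := fun g s => if ∀ h : Γ, h • s = s then 1 else S.sgn g s
    sgn_one := fun s => by
      split_ifs
      · rfl
      · exact S.sgn_one s
    sgn_mul := fun g h s => by
      have hiff : (∀ k : Γ, k • h • s = h • s) ↔ ∀ k : Γ, k • s = s := by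
        constructor
        · intro H k
          have h1 := H h⁻¹
          rw [inv_smul_smul] at h1
          have h2 := H k
          rw [← h1] at h2
          exact h2
        · intro H k
          rw [H h, H k]
      by_cases hs : ∀ k : Γ, k • s = s
      · rw [if_pos hs, if_pos hs, if_pos (hiff.mpr hs), one_mul]
      · rw [if_neg hs, if_neg hs, if_neg (fun H => hs (hiff.mp H))]
        exact S.sgn_mul g h s }

theorem mem_Z0 [Finite Γ] (S : SignedSet Γ) (s : S.S) :
    (show (spin0 S).carrier from s) ∈ (spin0 S).Z ↔ ∀ g : Γ, g • s = s := by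
  constructor
  · intro h g
    exact (spin0 S).smul_of_mem h g
  · intro h g v
    exact tb_eq S (h g)

theorem newAct0 [Finite Γ] (S : SignedSet Γ) : (spin0 S).newAct = act0 S.fix := by
  apply MulAction.ext
  funext g e
  show (spin0 S).newSmul g e = (act0 S.fix).smul g e
  by_cases hs : ∀ h : Γ, h • e.1 = e.1
  · have h1 : ((spin0 S).fr e).pt ∈ (spin0 S).Z := (mem_Z0 S e.1).mpr hs
    rw [SpinMfd.newSmul_of_mem _ h1]
    refine Prod.ext (hs g).symm (Prod.ext (Subtype.ext ?_) rfl)
    show (e.2.1 : ℂ) = ((S.fix.sgn g e.1 : ℤ) : ℂ) * e.2.1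
    have h2 : S.fix.sgn g e.1 = 1 := if_pos hs
    rw [h2]
    simp
  · have h1 : ((spin0 S).fr e).pt ∉ (spin0 S).Z := fun h => hs ((mem_Z0 S e.1).mp h)
    rw [SpinMfd.newSmul_of_notMem _ h1]
    refine Prod.ext rfl (Prod.ext (Subtype.ext ?_) rfl)
    show ((S.sgn g e.1 : ℤ) : ℂ) * e.2.1 = ((S.fix.sgn g e.1 : ℤ) : ℂ) * e.2.1
    have h2 : S.fix.sgn g e.1 = S.sgn g e.1 := if_neg hs
    rw [h2]

theorem tw_triple0 [Finite Γ] (x₀ : X) (hx₀ : ∀ g : Γ, g • x₀ = x₀) (S : SignedSet Γ)
    (ho : IsOpen (triple0 x₀ hx₀ S).Z) :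
    (triple0 x₀ hx₀ S).tw ho = triple0 x₀ hx₀ S.fix := by
  have h := Triple.withAct_congr (triple0 x₀ hx₀ S) (newAct0 S)
    ((spin0 S).tw ho).continuous_smulP ((spin0 S).tw ho).fr_smul
    (spin0 S.fix).continuous_smulP (spin0 S.fix).fr_smul
  exact h

end Pool.Agent.N774.Stolz
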