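import Mathlib
import Pool.Agent.N774.Stolz.Main

/-!
The trace of a group element on `K₀(ℝ[Γ])` and the main theorem.
-/

set_option autoImplicit false
set_option linter.style.haveILetI false
set_option linter.unusedSectionVars false

noncomputable section

namespace Pool.Agent.N774.Stolz

section tr

variable {Γ : Type} [Group Γ] [Finite Γ]

/-- the real vector space underlying a module over the group ring -/
@[reducible] def realMod (P : FGP (MonoidAlgebra ℝ Γ)) : Module ℝ P.mdl :=
  Module.compHom P.mdl (algebraMap ℝ (MonoidAlgebra ℝ Γ))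

theorem realMod_smul (P : FGP (MonoidAlgebra ℝ Γ)) (c : ℝ) (x : P.mdl) :
    (letI := realMod P; c • x) = (algebraMap ℝ (MonoidAlgebra ℝ Γ) c) • x := rfl

theorem realMod_finite (P : FGP (MonoidAlgebra ℝ Γ)) :
    letI := realMod P; Module.Finite ℝ P.mdl := by
  letI := realMod P
  haveI : IsScalarTower ℝ (MonoidAlgebra ℝ Γ) P.mdl := by
    refine ⟨fun c a x => ?_⟩
    rw [realMod_smul, Algebra.smul_def, mul_smul]
  haveI : Module.Finite ℝ (MonoidAlgebra ℝ Γ) := by
    haveI := Fintype.ofFinite Γ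
    infer_instance
  exact Module.Finite.trans (MonoidAlgebra ℝ Γ) P.mdl

/-- the action of an element of `Γ` -/
def opr (g : Γ) (P : FGP (MonoidAlgebra ℝ Γ)) :
    letI := realMod P; P.mdl →ₗ[ℝ] P.mdl :=
  letI := realMod P
  { toFun := fun x => (MonoidAlgebra.of ℝ Γ g) • x
    map_add' := fun x y => smul_add _ _ _
    map_smul' := fun c x => by
      rw [RingHom.id_apply, realMod_smul, realMod_smul, ← mul_smul, ← mul_smul,
        Algebra.commutes] }

/-- the trace of an element of `Γ` on a module -/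
def tr (g : Γ) (P : FGP (MonoidAlgebra ℝ Γ)) : ℝ :=
  letI := realMod P; LinearMap.trace ℝ P.mdl (opr g P)

theorem tr_add (g : Γ) {P Q R : FGP (MonoidAlgebra ℝ Γ)}
    (e : R.mdl ≃ₗ[MonoidAlgebra ℝ Γ] P.mdl × Q.mdl) : tr g R = tr g P + tr g Q := by
  letI := realMod P
  letI := realMod Q
  letI := realMod R
  haveI := realMod_finite P
  haveI := realMod_finite Q
  haveI := realMod_finite R
  let e' : R.mdl ≃ₗ[ℝ] P.mdl × Q.mdl :=
    { e with
      map_smul' := fun c x => by
        show e (c • x) = c • e x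
        rw [realMod_smul, map_smul]
        rfl }
  have h1 : e'.conj (opr g R) = (opr g P).prodMap (opr g Q) := by
    apply LinearMap.ext
    intro x
    rw [LinearEquiv.conj_apply_apply]
    show e ((MonoidAlgebra.of ℝ Γ g) • e.symm x) = _
    rw [map_smul, LinearEquiv.apply_symm_apply]
    rfl
  have h2 := LinearMap.trace_conj' (opr g R) e'
  rw [h1, LinearMap.trace_prodMap'] at h2
  exact h2.symm

/-- the trace on `K₀` -/
def trK (g : Γ) : K0 (MonoidAlgebra ℝ Γ) →+ ℝ :=
  QuotientAddGroup.lift _ (FreeAbelianGroup.lift (tr g)) (by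
    rw [AddSubgroup.closure_le]
    rintro x ⟨P, Q, R, ⟨e⟩, rfl⟩
    simp only [SetLike.mem_coe, AddMonoidHom.mem_ker, map_sub, map_add,
      FreeAbelianGroup.lift_apply_of]
    rw [tr_add g e]
    ring)

theorem trK_mk (g : Γ) (P : FGP (MonoidAlgebra ℝ Γ)) : trK g (K0.mk P) = tr g P := by
  show FreeAbelianGroup.lift (tr g) (FreeAbelianGroup.of P) = _
  rw [FreeAbelianGroup.lift_apply_of]

theorem tr_module (S : SignedSet Γ) [Fintype S.S] [DecidableEq S.S] (g : Γ) :
    tr g S.module = ∑ s : S.S, if g • s = s then ((S.sgn g s : ℤ) : ℝ) else 0 := by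
  letI := realMod S.module
  let e : S.module.mdl ≃ₗ[ℝ] (S.S → ℝ) :=
    { toFun := fun x => S.rep.asModuleEquiv x
      invFun := fun f => S.rep.asModuleEquiv.symm f
      left_inv := fun x => rfl
      right_inv := fun x => rfl
      map_add' := fun x y => rfl
      map_smul' := fun c x => by
        have h : (algebraMap ℝ (MonoidAlgebra ℝ Γ) c) • (show S.rep.asModule from x) =
          c • (show S.rep.asModule from x) := algebraMap_smul _ _ _
        exact congrArg S.rep.asModuleEquiv h }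
  have h1 : e.conj (opr g S.module) = S.rep g := by
    apply LinearMap.ext
    intro f
    rw [LinearEquiv.conj_apply_apply]
    show S.rep.asModuleEquiv ((MonoidAlgebra.of ℝ Γ g) • S.rep.asModuleEquiv.symm f) = S.rep g f
    rw [← Representation.asModuleEquiv_symm_map_rho, LinearEquiv.apply_symm_apply]
  have h2 := LinearMap.trace_conj' (opr g S.module) e
  rw [h1] at h2
  rw [tr, ← h2, LinearMap.trace_eq_matrix_trace ℝ (Pi.basisFun ℝ S.S)]
  simp only [Matrix.trace, Matrix.diag, LinearMap.toMatrix_apply, Pi.basisFun_repr,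
    Pi.basisFun_apply]
  refine Finset.sum_congr rfl fun s _ => ?_
  show ((S.sgn g (g⁻¹ • s) : ℤ) : ℝ) * (Pi.single s (1 : ℝ) : S.S → ℝ) (g⁻¹ • s) = _
  by_cases h : g • s = s
  · have h' : g⁻¹ • s = s := by rw [inv_smul_eq_iff, h]
    rw [if_pos h, h', Pi.single_eq_same, mul_one]
  · have h' : g⁻¹ • s ≠ s := fun H => h (by rw [inv_smul_eq_iff] at H; exact H.symm)
    rw [if_neg h, Pi.single_eq_of_ne h', mul_zero]

end tr

/-! ### isomorphic modules -/

/-- the zero module -/
def FGP.zero (A : Type) [Ring A] : FGP A where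
  mdl := PUnit

theorem K0.mk_zero {A : Type} [Ring A] : K0.mk (FGP.zero A) = 0 := by
  have h : K0.mk (FGP.zero A) - (K0.mk (FGP.zero A) + K0.mk (FGP.zero A)) = 0 := by
    refine (QuotientAddGroup.eq_zero_iff _).mpr (AddSubgroup.subset_closure ?_)
    refine ⟨FGP.zero A, FGP.zero A, FGP.zero A, ⟨?_⟩, rfl⟩
    exact
      { toFun := fun _ => (PUnit.unit, PUnit.unit)
        invFun := fun _ => PUnit.unit
        left_inv := fun _ => rfl
        right_inv := fun _ => rfl
        map_add' := fun _ _ => rfl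
        map_smul' := fun _ _ => rfl }
  have h2 := h
  abel_nf at h2
  simpa using h2

theorem K0.mk_congr {A : Type} [Ring A] {P Q : FGP A} (e : P.mdl ≃ₗ[A] Q.mdl) :
    K0.mk P = K0.mk Q := by
  have h : K0.mk P - (K0.mk Q + K0.mk (FGP.zero A)) = 0 := by
    refine (QuotientAddGroup.eq_zero_iff _).mpr (AddSubgroup.subset_closure ?_)
    refine ⟨Q, FGP.zero A, P, ⟨?_⟩, rfl⟩
    exact
      { toFun := fun x => (e x, PUnit.unit)
        invFun := fun y => e.symm y.1
        left_inv := fun x => e.symm_apply_apply x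
        right_inv := fun y => Prod.ext (e.apply_symm_apply y.1) rfl
        map_add' := fun x y => Prod.ext (map_add e x y) rfl
        map_smul' := fun c x => Prod.ext (map_smul e c x) rfl }
  rw [K0.mk_zero, add_zero] at h
  exact sub_eq_zero.mp h

/-- isomorphic signed permutation representations have isomorphic modules -/
theorem mk_module_congr {Γ : Type} [Group Γ] [Finite Γ] (S T : SignedSet Γ)
    (φ : (S.S → ℝ) ≃ₗ[ℝ] (T.S → ℝ)) (h : ∀ g f, φ (S.rep g f) = T.rep g (φ f)) :
    K0.mk S.module = K0.mk T.module := by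
  apply K0.mk_congr
  let ψ : S.rep.asModule →ₗ[ℝ] T.rep.asModule :=
    T.rep.asModuleEquiv.symm.toLinearMap ∘ₗ φ.toLinearMap ∘ₗ S.rep.asModuleEquiv.toLinearMap
  have hψ : ∀ (g : Γ) (v : S.rep.asModule), ψ (MonoidAlgebra.single g (1 : ℝ) • v) =
      MonoidAlgebra.single g (1 : ℝ) • ψ v := by
    intro g v
    have h1 : ∀ w : S.S → ℝ, MonoidAlgebra.of ℝ Γ g • S.rep.asModuleEquiv.symm w =
        S.rep.asModuleEquiv.symm (S.rep g w) := fun w =>
      (Representation.asModuleEquiv_symm_map_rho S.rep g w).symm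
    have h2 : ∀ w : T.S → ℝ, MonoidAlgebra.of ℝ Γ g • T.rep.asModuleEquiv.symm w =
        T.rep.asModuleEquiv.symm (T.rep g w) := fun w =>
      (Representation.asModuleEquiv_symm_map_rho T.rep g w).symm
    obtain ⟨w, rfl⟩ := S.rep.asModuleEquiv.symm.surjective v
    show ψ (MonoidAlgebra.of ℝ Γ g • S.rep.asModuleEquiv.symm w) =
      MonoidAlgebra.of ℝ Γ g • T.rep.asModuleEquiv.symm (φ w)
    rw [h1, h2, ← h]
    rfl
  have hb : Function.Bijective ψ :=
    T.rep.asModuleEquiv.symm.bijective.comp (φ.bijective.comp S.rep.asModuleEquiv.bijective)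
  exact LinearEquiv.ofBijective (MonoidAlgebra.equivariantOfLinearOfComm ψ hψ) hb

/-! ### the example -/

section example_

variable {Γ : Type} [Group Γ] (χ : Γ →* ℤˣ)

/-- the group `{1, -1}` with the action of `Γ` by the character `χ` (the set `Γ / ker χ`), all signs
being `1` -/
def SX : SignedSet Γ where
  S := ℤˣ
  act := MulAction.compHom ℤˣ χ
  sgn _ _ := 1
  sgn_one _ := rfl
  sgn_mul _ _ _ := rfl

/-- two points fixed by `Γ`, which acts trivially on the spin structure at the first one and by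
the sign `χ` at the second one -/
def SY : SignedSet Γ where
  S := Bool
  act := { smul := fun _ b => b, one_smul := fun _ => rfl, mul_smul := fun _ _ _ => rfl }
  sgn g b := if b then χ g else 1
  sgn_one b := by cases b <;> simp
  sgn_mul g h b := by
    cases b
    · rfl
    · simp

theorem SignedSet.fix_eq (S : SignedSet Γ)
    (h : ∀ g s, (∀ k : Γ, k • s = s) → S.sgn g s = 1) : S.fix = S := by
  have hs : S.fix.sgn = S.sgn := by
    funext g s
    by_cases hk : ∀ k : Γ, k • s = s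
    · exact (if_pos hk).trans (h g s hk).symm
    · exact if_neg hk
  obtain @⟨S, t, d, f, a, sgn, h1, h2⟩ := S
  simp only [SignedSet.fix] at hs ⊢
  congr!

theorem SX_fix : (SX χ).fix = SX χ := (SX χ).fix_eq fun _ _ _ => rfl

/-- the isomorphism -/
def phi : (ℤˣ → ℝ) ≃ₗ[ℝ] (Bool → ℝ) where
  toFun f b := if b then f 1 - f (-1) else f 1 + f (-1)
  invFun f u := if u = 1 then (f false + f true) / 2 else (f false - f true) / 2
  left_inv f := by
    funext u
    rcases Int.units_eq_one_or u with rfl | rfl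
    · simp
    · simp
  right_inv f := by
    funext b
    cases b
    · simp
      ring
    · simp
      ring
  map_add' f f' := by
    funext b
    cases b
    · simp; ring
    · simp; ring
  map_smul' c f := by
    funext b
    cases b
    · simp; ring
    · simp; ring

theorem phi_apply (f : ℤˣ → ℝ) (b : Bool) :
    phi f b = if b then f 1 - f (-1) else f 1 + f (-1) := rfl

theorem repX (g : Γ) (f : ℤˣ → ℝ) : ((SX χ).rep g f : ℤˣ → ℝ) = fun s => f ((χ g)⁻¹ * s) := by
  refine funext fun (s : ℤˣ) => ?_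
  show (((1 : ℤˣ) : ℤ) : ℝ) * f (χ g⁻¹ * s) = _
  simp

theorem phi_rep (u : ℤˣ) (f : ℤˣ → ℝ) :
    phi (fun s => f (u⁻¹ * s)) = fun b => (((if b then u else 1 : ℤˣ) : ℤ) : ℝ) * phi f b := by
  funext b
  simp only [phi_apply]
  rcases Int.units_eq_one_or u with rfl | rfl
  · cases b <;> simp
  · cases b
    · simp; ring
    · simp

variable [Finite Γ]

theorem SX_SY : K0.mk (SX χ).module = K0.mk (SY χ).module := by
  refine mk_module_congr (SX χ) (SY χ) phi ?_
  intro g f
  have h1 := phi_rep (χ g) f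
  rw [← repX χ g f] at h1
  exact h1

variable {χ}

theorem tr_SY {g : Γ} (hg : χ g = -1) : tr g (SY χ).module = 0 := by
  letI : Fintype (SY χ).S := inferInstanceAs (Fintype Bool)
  letI : DecidableEq (SY χ).S := inferInstanceAs (DecidableEq Bool)
  rw [tr_module]
  have h : ∀ b : (SY χ).S, (if g • b = b then (((SY χ).sgn g b : ℤ) : ℝ) else 0) =
      (fun c : Bool => (((if c then χ g else 1 : ℤˣ) : ℤ) : ℝ)) b := fun b => if_pos rfl
  rw [Finset.sum_congr rfl fun b _ => h b]
  show ∑ b : Bool, (((if b then χ g else 1 : ℤˣ) : ℤ) : ℝ) = 0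
  rw [hg]
  simp

theorem tr_SY_fix (g : Γ) : tr g (SY χ).fix.module = 2 := by
  haveI : Fintype (SY χ).fix.S := inferInstanceAs (Fintype Bool)
  haveI : DecidableEq (SY χ).fix.S := inferInstanceAs (DecidableEq Bool)
  rw [tr_module]
  have h : ∀ b : (SY χ).fix.S, (if g • b = b then (((SY χ).fix.sgn g b : ℤ) : ℝ) else 0) =
      1 := fun b => by
    have h1 : (SY χ).fix.sgn g b = 1 := if_pos fun _ => rfl
    rw [h1]
    exact (if_pos rfl).trans (by simp)
  rw [Finset.sum_congr rfl fun b _ => h b]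
  simp only [Finset.sum_const, Finset.card_univ, nsmul_eq_mul, mul_one]
  have h3 : Fintype.card (SY χ).fix.S = 2 := by
    rw [Fintype.card_eq_nat_card]
    exact Nat.card_eq_fintype_card (α := Bool)
  rw [h3]
  norm_num

/-- the function on `P0` -/
def sg (p : P0) : ℝ := by
  classical
  exact if (p.1 : ℂ) = 1 ∧ p.2 = 0 then 1 else if (p.1 : ℂ) = -1 ∧ p.2 = 0 then -1 else 0

theorem sg_one {p : P0} (h1 : (p.1 : ℂ) = 1) (h2 : p.2 = 0) : sg p = 1 := if_pos ⟨h1, h2⟩

theorem sg_neg_one {p : P0} (h1 : (p.1 : ℂ) = -1) (h2 : p.2 = 0) : sg p = -1 := by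
  have : ¬ ((p.1 : ℂ) = 1 ∧ p.2 = 0) := by
    rintro ⟨h, _⟩
    rw [h] at h1
    norm_num at h1
  exact (if_neg this).trans (if_pos ⟨h1, h2⟩)

theorem sg_zero {p : P0} (h : ¬ (((p.1 : ℂ) = 1 ∨ (p.1 : ℂ) = -1) ∧ p.2 = 0)) : sg p = 0 := by
  have h1 : ¬ ((p.1 : ℂ) = 1 ∧ p.2 = 0) := fun h' => h ⟨Or.inl h'.1, h'.2⟩
  have h2 : ¬ ((p.1 : ℂ) = -1 ∧ p.2 = 0) := fun h' => h ⟨Or.inr h'.1, h'.2⟩
  exact (if_neg h1).trans (if_neg h2)

theorem sg_unit (u : ℤˣ) {p q : P0} (h1 : (q.1 : ℂ) = ((u : ℤ) : ℂ) * p.1) (h2 : q.2 = p.2) :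
    sg q = ((u : ℤ) : ℝ) * sg p := by
  rcases Int.units_eq_one_or u with rfl | rfl
  · have : q = p := Prod.ext (Subtype.ext (by simpa using h1)) h2
    rw [this]; simp
  · have h1' : (q.1 : ℂ) = -p.1 := by simpa using h1
    by_cases h0 : p.2 = 0
    · by_cases ha : (p.1 : ℂ) = 1
      · rw [sg_one ha h0, sg_neg_one (by rw [h1', ha]) (h2.trans h0)]; simp
      · by_cases hb : (p.1 : ℂ) = -1
        · rw [sg_neg_one hb h0, sg_one (by rw [h1', hb, neg_neg]) (h2.trans h0)]; simp
        · rw [sg_zero (p := p) (fun h => h.1.elim ha hb), sg_zero]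
          · simp
          · rintro ⟨h | h, _⟩
            · exact hb (by rw [← h, h1', neg_neg])
            · exact ha (neg_injective (by rw [← h1', h]))
    · rw [sg_zero (p := p) (fun h => h0 h.2), sg_zero (fun h => h0 (h2 ▸ h.2))]
      simp

theorem linC_id {p : P0} (h : ((p.1 : ℂ) = 1 ∨ (p.1 : ℂ) = -1) ∧ p.2 = 0) (z : ℂ) :
    linC p z = z := by
  have h1 : (p.1 : ℂ) ^ 2 = 1 := by rcases h.1 with h1 | h1 <;> rw [h1] <;> norm_num
  simp only [linC, LinearMap.coe_mk, AddHom.coe_mk]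
  rw [h1, h.2, one_mul]
  simp only [Complex.zero_re, Complex.zero_im, Real.exp_zero, Complex.ofReal_zero, zero_add,
    Complex.ofReal_one, mul_one]
  exact Complex.re_add_im z

theorem of_linC {p : P0} (h1 : linC p 1 = 1) : (p.1 : ℂ) = 1 ∨ (p.1 : ℂ) = -1 := by
  rw [linC_one] at h1
  have : ((p.1 : ℂ) - 1) * ((p.1 : ℂ) + 1) = 0 := by linear_combination h1
  rcases mul_eq_zero.mp this with h | h
  · exact Or.inl (sub_eq_zero.mp h)
  · exact Or.inr (eq_neg_of_add_eq_zero_left h)

theorem of_linC_I {p : P0} (h1 : linC p 1 = 1) (c : ℂ) (h2 : linC p Complex.I = c) :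
    p.2.re = c.re ∧ Real.exp p.2.im = c.im := by
  rw [linC_one] at h1
  rw [linC_I, h1, one_mul] at h2
  constructor
  · rw [← h2, Complex.add_re, Complex.I_mul_re, Complex.ofReal_re, Complex.ofReal_im]; ring
  · rw [← h2, Complex.add_im, Complex.I_mul_im, Complex.ofReal_re, Complex.ofReal_im]; ring

section spinors

variable {Γ : Type} [Group Γ] [Finite Γ] {X : Type} [TopologicalSpace X] [MulAction Γ X] (x₀ : X)
  (hx₀ : ∀ g : Γ, g • x₀ = x₀)

/-- the spinors -/
def spj (S : SignedSet Γ) (f : S.module.mdl) (e : S.S × P0) : ℝ :=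
  sg e.2 * S.rep.asModuleEquiv f e.1

theorem sgn_inv (S : SignedSet Γ) (g : Γ) (s : S.S) : S.sgn g (g⁻¹ • s) = S.sgn g⁻¹ s := by
  have h := S.sgn_mul g g⁻¹ s
  rw [mul_inv_cancel, S.sgn_one] at h
  rcases Int.units_eq_one_or (S.sgn g⁻¹ s) with h1 | h1
  · rw [h1] at h ⊢
    rw [mul_one] at h
    exact h.symm
  · rw [h1] at h ⊢
    rw [mul_neg, mul_one] at h
    rw [h, neg_neg]

theorem isSpinors_pos (S : SignedSet Γ) :
    IsSpinors (triple0 x₀ hx₀ S).toSpinMfd id S.module (spj S) where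
  injective f f' h := by
    apply S.rep.asModuleEquiv.injective
    funext s
    have h1 := congrFun h (s, ⟨⟨1, one_ne_zero⟩, 0⟩)
    simp only [spj, sg_one (p := ⟨⟨1, one_ne_zero⟩, 0⟩) rfl rfl, one_mul] at h1
    exact h1
  add v w e := by
    show sg e.2 * S.rep.asModuleEquiv (v + w) e.1 = _
    have h1 : S.rep.asModuleEquiv (v + w) e.1 =
      S.rep.asModuleEquiv v e.1 + S.rep.asModuleEquiv w e.1 :=
      congrFun (map_add S.rep.asModuleEquiv v w) e.1
    rw [h1, mul_add]
    rfl
  smul c g v e := by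
    have h1 : S.rep.asModuleEquiv (MonoidAlgebra.single g c • v) =
        c • S.rep g (S.rep.asModuleEquiv v) := by
      have h2 := S.rep.asModuleEquiv_map_smul (MonoidAlgebra.single g c) v
      rw [Representation.asAlgebraHom_single] at h2
      exact h2
    show sg e.2 * S.rep.asModuleEquiv (MonoidAlgebra.single g c • v) e.1 = _
    rw [h1]
    show sg e.2 * (c * (((S.sgn g (g⁻¹ • e.1) : ℤ) : ℝ) * S.rep.asModuleEquiv v (g⁻¹ • e.1))) =
      c * (sg ((act0 S).smul g⁻¹ e).2 * S.rep.asModuleEquiv v (g⁻¹ • e.1))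
    rw [sgn_inv, sg_unit (S.sgn g⁻¹ e.1) (p := e.2) (q := ((act0 S).smul g⁻¹ e).2) rfl rfl]
    ring
  range φ := by
    constructor
    · rintro ⟨f, rfl⟩ e
      constructor
      · show sg (neg0 S e).2 * _ = _
        rw [sg_unit (-1) (p := e.2) (q := (neg0 S e).2) (by simp [neg0]) rfl]
        show _ = -(sg e.2 * _)
        simp only [Units.val_neg, Units.val_one, Int.cast_neg, Int.cast_one]
        ring_nf
        rfl
      · intro h z
        show linC e.2 z = z
        apply linC_id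
        by_contra h0
        apply h
        show sg e.2 * _ = 0
        rw [sg_zero h0, zero_mul]
    · intro h
      refine ⟨S.rep.asModuleEquiv.symm (fun s => φ (s, ⟨⟨1, one_ne_zero⟩, 0⟩)), ?_⟩
      funext e
      show sg e.2 * (fun s => φ (s, ⟨⟨1, one_ne_zero⟩, 0⟩)) e.1 = φ e
      by_cases h0 : ((e.2.1 : ℂ) = 1 ∨ (e.2.1 : ℂ) = -1) ∧ e.2.2 = 0
      · rcases h0 with ⟨h1 | h1, h2⟩
        · rw [sg_one h1 h2, one_mul]
          have h4 : ((e.1, ⟨⟨1, one_ne_zero⟩, 0⟩) : S.S × P0) = e :=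
            Prod.ext rfl (Prod.ext (Subtype.ext h1.symm) h2.symm)
          exact congrArg φ h4
        · rw [sg_neg_one h1 h2]
          have h3 := (h (e.1, ⟨⟨1, one_ne_zero⟩, 0⟩)).1
          have h4 : neg0 S (e.1, ⟨⟨1, one_ne_zero⟩, 0⟩) = e :=
            Prod.ext rfl (Prod.ext (Subtype.ext h1.symm) h2.symm)
          have h5 : φ e = -φ (e.1, ⟨⟨1, one_ne_zero⟩, 0⟩) := (congrArg φ h4).symm.trans h3
          rw [h5, neg_one_mul]
      · rw [sg_zero h0, zero_mul]
        by_contra h1
        have h2 := (h e).2 (Ne.symm h1)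
        apply h0
        have h3 : linC e.2 1 = 1 := h2 1
        have h4 : linC e.2 Complex.I = Complex.I := h2 Complex.I
        refine ⟨of_linC h3, ?_⟩
        have h5 := of_linC_I h3 _ h4
        refine Complex.ext ?_ ?_
        · rw [h5.1]; simp
        · have h6 := h5.2
          rw [Complex.I_im, Real.exp_eq_one_iff] at h6
          rw [h6]; simp

theorem isSpinors_neg (S : SignedSet Γ) :
    IsSpinors (triple0 x₀ hx₀ S).toSpinMfd (starRingEnd ℂ) (FGP.zero _) (fun _ _ => 0) where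
  injective f f' _ := rfl
  add v w e := by simp
  smul c g v e := by simp
  range φ := by
    constructor
    · rintro ⟨f, rfl⟩ e
      simp
    · intro h
      refine ⟨PUnit.unit, ?_⟩
      funext e
      by_contra h1
      have h2 := (h e).2 (Ne.symm h1)
      have h3 : linC e.2 1 = 1 := by
        have := h2 1
        rw [map_one] at this
        exact this
      have h4 : linC e.2 Complex.I = -Complex.I := by
        have := h2 Complex.I
        rw [Complex.conj_I] at this
        exact this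
      have h5 := (of_linC_I h3 _ h4).2
      have h6 := Real.exp_pos e.2.2.im
      rw [h5] at h6
      simp at h6
      linarith

end spinors

/-- the two classes have the same image but they are different -/
theorem main (hχ : χ ≠ 1) (B : Factor) (X : Type) [TopologicalSpace X] [MulAction Γ X] (x₀ : X)
    (hx₀ : ∀ g : Γ, g • x₀ = x₀) (Θ : RLim Γ X B 0 → K0 (MonoidAlgebra ℝ Γ))
    (hΘ : ∀ (L : Triple Γ X 0) (V W : FGP (MonoidAlgebra ℝ Γ)) (j : V.mdl → L.P → ℝ)
      (k : W.mdl → L.P → ℝ), IsSpinors L.toSpinMfd id V j →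
      IsSpinors L.toSpinMfd (starRingEnd ℂ) W k → Θ (L.cls B) = K0.mk V - K0.mk W) :
    Θ ((triple0 x₀ hx₀ (SX χ)).cls B) = Θ ((triple0 x₀ hx₀ (SY χ)).cls B) ∧
      (triple0 x₀ hx₀ (SX χ)).cls B ≠ (triple0 x₀ hx₀ (SY χ)).cls B := by
  have hΘ' : ∀ S : SignedSet Γ, Θ ((triple0 x₀ hx₀ S).cls B) = K0.mk S.module := by
    intro S
    rw [hΘ _ _ _ _ _ (isSpinors_pos x₀ hx₀ S) (isSpinors_neg x₀ hx₀ S), K0.mk_zero, sub_zero]
  refine ⟨by rw [hΘ', hΘ', SX_SY], fun h1 => ?_⟩
  obtain ⟨g, hg⟩ : ∃ g, χ g = -1 := by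
    by_contra hne
    push Not at hne
    apply hχ
    ext g
    rcases Int.units_eq_one_or (χ g) with h | h
    · rw [h]; rfl
    · exact absurd h (hne g)
  have ho : ∀ (m : ℕ) (M : SpinMfd Γ m), IsOpen M.Z := fun m M => isOpen_Z M
  have h2 := congrArg (twLim ho B 0) h1
  have h3 : ∀ S : SignedSet Γ, twLim ho B 0 ((triple0 x₀ hx₀ S).cls B) =
      (triple0 x₀ hx₀ S.fix).cls B := by
    intro S
    have h4 := tw_triple0 x₀ hx₀ S (ho _ _)
    show (Quot.mk _ ⟨0, (triple0 x₀ hx₀ S).tw (ho _ _)⟩ : RLim Γ X B 0) = _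
    rw [h4]
    rfl
  rw [h3, h3, SX_fix] at h2
  have h5 := congrArg Θ h2
  rw [hΘ', hΘ', SX_SY] at h5
  have h6 := congrArg (trK g) h5
  rw [trK_mk, trK_mk, tr_SY hg, tr_SY_fix] at h6
  norm_num at h6

end example_

end Pool.Agent.N774.Stolz
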